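import Mathlib

/-!
# Gaussian averaging on `ℝ ^ n`

The iterates of the averaging operator `La` converge, exponentially fast, to the projection on its
Gaussian eigenfunction.
-/

set_option autoImplicit false

open MeasureTheory Filter
open scoped Topology

namespace Pool.Agent.N565.T3U

noncomputable section

variable {n : ℕ}

/-- the square of the Euclidean norm -/
def sq (x : Fin n → ℝ) : ℝ := ∑ b, x b ^ 2

/-- `exp (- a |x|²)` -/
def gx (a : ℝ) (x : Fin n → ℝ) : ℝ := Real.exp (-(a * sq x))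

lemma sq_nonneg' (x : Fin n → ℝ) : 0 ≤ sq x := Finset.sum_nonneg fun _ _ => sq_nonneg _

lemma sq_cont : Continuous (sq (n := n)) := by
  unfold sq
  fun_prop

lemma gx_pos (a : ℝ) (x : Fin n → ℝ) : 0 < gx a x := Real.exp_pos _

lemma gx_cont (a : ℝ) : Continuous (gx (n := n) a) := by
  have := sq_cont (n := n)
  unfold gx
  fun_prop

lemma gx_le_one {a : ℝ} (ha : 0 ≤ a) (x : Fin n → ℝ) : gx a x ≤ 1 :=
  Real.exp_le_one_iff.2 (neg_nonpos.2 (mul_nonneg ha (sq_nonneg' x)))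

lemma gx_mul (a b : ℝ) (x : Fin n → ℝ) : gx a x * gx b x = gx (a + b) x := by
  unfold gx
  rw [← Real.exp_add]
  congr 1
  ring

lemma gx_anti {a b : ℝ} (h : a ≤ b) (x : Fin n → ℝ) : gx b x ≤ gx a x :=
  Real.exp_le_exp.2 (neg_le_neg (mul_le_mul_of_nonneg_right h (sq_nonneg' x)))

lemma gx_int {a : ℝ} (ha : 0 < a) : Integrable (gx (n := n) a) := by
  have h1 : Integrable (fun x : Fin n → ℝ => ∏ b, Real.exp (-a * x b ^ 2)) := by
    rw [volume_pi]
    exact Integrable.fintype_prod (f := fun _ (t : ℝ) => Real.exp (-a * t ^ 2)) fun _ =>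
      integrable_exp_neg_mul_sq ha
  refine h1.congr (Eventually.of_forall fun x => ?_)
  beta_reduce
  rw [← Real.exp_sum]
  unfold gx sq
  rw [← Finset.mul_sum, neg_mul]

lemma gx_int_pos {a : ℝ} (ha : 0 < a) : 0 < ∫ x, gx (n := n) a x := by
  rw [integral_pos_iff_support_of_nonneg (fun z => (gx_pos a z).le) (gx_int ha)]
  have h3 : Function.support (gx (n := n) a) = Set.univ := by
    ext z
    simp [(gx_pos a z).ne']
  rw [h3]
  exact isOpen_univ.measure_pos _ Set.univ_nonempty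

/-- continuous functions bounded by a Gaussian -/
structure GB (f : (Fin n → ℝ) → ℝ) : Prop where
  cont : Continuous f
  bd : ∃ C c : ℝ, 0 ≤ C ∧ 0 < c ∧ ∀ x, |f x| ≤ C * gx c x

lemma GB.int {f : (Fin n → ℝ) → ℝ} (h : GB f) : Integrable f := by
  obtain ⟨C, c, hC, hc, hb⟩ := h.bd
  exact ((gx_int hc).const_mul C).mono' h.cont.aestronglyMeasurable
    (Eventually.of_forall fun x => hb x)

lemma gb_gx {a : ℝ} (ha : 0 < a) : GB (gx (n := n) a) :=
  ⟨gx_cont a, 1, a, zero_le_one, ha, fun x => by rw [abs_of_pos (gx_pos a x), one_mul]⟩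

lemma GB.sub {f g : (Fin n → ℝ) → ℝ} (hf : GB f) (hg : GB g) : GB fun x => f x - g x := by
  obtain ⟨C, c, hC, hc, hb⟩ := hf.bd
  obtain ⟨C', c', hC', hc', hb'⟩ := hg.bd
  refine ⟨hf.cont.sub hg.cont, C + C', min c c', by positivity, lt_min hc hc', fun x => ?_⟩
  refine (abs_sub _ _).trans ?_
  have h1 := mul_le_mul_of_nonneg_left (gx_anti (min_le_left c c') x) hC
  have h2 := mul_le_mul_of_nonneg_left (gx_anti (min_le_right c c') x) hC'
  have h3 := hb x
  have h4 := hb' x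
  rw [add_mul]
  linarith

lemma GB.smul {f : (Fin n → ℝ) → ℝ} (hf : GB f) (a : ℝ) : GB fun x => a * f x := by
  obtain ⟨C, c, hC, hc, hb⟩ := hf.bd
  refine ⟨continuous_const.mul hf.cont, |a| * C, c, by positivity, hc, fun x => ?_⟩
  rw [abs_mul, mul_assoc]
  exact mul_le_mul_of_nonneg_left (hb x) (abs_nonneg a)

/-- the averaging operator -/
def La (f : (Fin n → ℝ) → ℝ) (y : Fin n → ℝ) : ℝ := gx (3 / 8) y * ∫ x, f x * gx (1 / 6) (y - x)

lemma conv_int {f : (Fin n → ℝ) → ℝ} (hf : Integrable f) (hc : Continuous f) {a : ℝ} (ha : 0 ≤ a)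
    (y : Fin n → ℝ) (t : ℝ) : Integrable fun x => f x * gx a (y - t • x) := by
  refine hf.norm.mono' ?_ (Eventually.of_forall fun x => ?_)
  · have h1 : Continuous fun x : Fin n → ℝ => y - t • x := by fun_prop
    have h2 : Continuous fun x : Fin n → ℝ => f x * gx a (y - t • x) :=
      hc.mul ((gx_cont a).comp h1)
    exact h2.aestronglyMeasurable
  · rw [norm_mul]
    refine mul_le_of_le_one_right (norm_nonneg _) ?_
    rw [Real.norm_eq_abs, abs_of_pos (gx_pos a _)]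
    exact gx_le_one ha _

lemma La_gb {f : (Fin n → ℝ) → ℝ} (hf : GB f) : GB (La f) := by
  have hc : Continuous fun y => ∫ x, f x * gx (1 / 6) (y - x) := by
    refine continuous_of_dominated (bound := fun x => |f x|) (fun y => ?_) (fun y => ?_) ?_ ?_
    · exact (hf.cont.mul ((gx_cont _).comp (continuous_const.sub
        continuous_id))).aestronglyMeasurable
    · refine Eventually.of_forall fun x => ?_
      rw [norm_mul]
      refine mul_le_of_le_one_right (norm_nonneg _) ?_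
      rw [Real.norm_eq_abs, abs_of_pos (gx_pos _ _)]
      exact gx_le_one (by norm_num) _
    · exact hf.int.abs
    · exact Eventually.of_forall fun x => continuous_const.mul ((gx_cont _).comp
        (continuous_id.sub continuous_const))
  refine ⟨(gx_cont _).mul hc, ∫ x, |f x|, 3 / 8, integral_nonneg fun x => abs_nonneg _,
    by norm_num, fun y => ?_⟩
  unfold La
  rw [abs_mul, abs_of_pos (gx_pos _ _), mul_comm]
  refine mul_le_mul_of_nonneg_right ?_ (gx_pos _ _).le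
  refine abs_integral_le_integral_abs.trans (integral_mono ?_ hf.int.abs fun x => ?_)
  · have h1 := conv_int hf.int hf.cont (a := 1 / 6) (by norm_num) y 1
    simp only [one_smul] at h1
    exact h1.abs
  · beta_reduce
    rw [abs_mul, abs_of_pos (gx_pos _ _)]
    exact mul_le_of_le_one_right (abs_nonneg _) (gx_le_one (by norm_num) _)

lemma La_smul (a : ℝ) (f : (Fin n → ℝ) → ℝ) : La (fun x => a * f x) = fun y => a * La f y := by
  funext y
  unfold La
  have e : ∀ x, a * f x * gx (1 / 6) (y - x) = a * (f x * gx (1 / 6) (y - x)) := fun x => by ring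
  simp only [e]
  rw [integral_const_mul]
  ring

lemma La_sub {f g : (Fin n → ℝ) → ℝ} (hf : GB f) (hg : GB g) :
    La (fun x => f x - g x) = fun y => La f y - La g y := by
  funext y
  unfold La
  have h1 := conv_int hf.int hf.cont (a := 1 / 6) (by norm_num) y 1
  have h2 := conv_int hg.int hg.cont (a := 1 / 6) (by norm_num) y 1
  simp only [one_smul] at h1 h2
  rw [← mul_sub, ← integral_sub h1 h2]
  congr 2
  funext x
  ring

lemma iter_gb {f : (Fin n → ℝ) → ℝ} (hf : GB f) : ∀ D : ℕ, GB (La^[D] f)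
  | 0 => hf
  | D + 1 => by
    rw [Function.iterate_succ_apply']
    exact La_gb (iter_gb hf D)

lemma iter_sub {f g : (Fin n → ℝ) → ℝ} (hf : GB f) (hg : GB g) : ∀ D : ℕ,
    La^[D] (fun x => f x - g x) = fun y => La^[D] f y - La^[D] g y
  | 0 => rfl
  | D + 1 => by
    rw [Function.iterate_succ_apply', Function.iterate_succ_apply', Function.iterate_succ_apply',
      iter_sub hf hg D, La_sub (iter_gb hf D) (iter_gb hg D)]

lemma iter_smul (a : ℝ) (f : (Fin n → ℝ) → ℝ) : ∀ D : ℕ,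
    La^[D] (fun x => a * f x) = fun y => a * La^[D] f y
  | 0 => rfl
  | D + 1 => by
    rw [Function.iterate_succ_apply', Function.iterate_succ_apply', iter_smul a f D, La_smul]

/-! ### The kernel of the iterates -/

lemma base_id (x y : Fin n → ℝ) : gx (3 / 8) y * gx (1 / 6) (y - x) =
    gx (-(1 / 8)) y * (gx (1 / 8) x * gx (2 / 3) (y - (1 / 4 : ℝ) • x)) := by
  unfold gx sq
  rw [← Real.exp_add, ← Real.exp_add, ← Real.exp_add]
  congr 1
  simp only [Finset.mul_sum, ← Finset.sum_neg_distrib, ← Finset.sum_add_distrib, Pi.sub_apply,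
    Pi.smul_apply, smul_eq_mul]
  refine Finset.sum_congr rfl fun b _ => ?_
  ring

lemma La_eq (f : (Fin n → ℝ) → ℝ) (y : Fin n → ℝ) : La f y =
    gx (-(1 / 8)) y * ∫ x, f x * gx (1 / 8) x * gx (2 / 3) (y - (1 / 4 : ℝ) • x) := by
  unfold La
  rw [← integral_const_mul, ← integral_const_mul]
  refine integral_congr_ae (Eventually.of_forall fun x => ?_)
  beta_reduce
  have h := base_id x y
  linear_combination f x * h

/-- the convolution of two Gaussians -/
lemma conv_gauss {A δ : ℝ} (hA : 0 < A) (w : Fin n → ℝ) :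
    ∫ u : Fin n → ℝ, gx (2 / 3) u * gx A (w - δ • u) =
      (∫ u : Fin n → ℝ, gx (2 / 3 + A * δ ^ 2) u) *
        gx (2 / 3 * A / (2 / 3 + A * δ ^ 2)) w := by
  have hB : 0 < 2 / 3 + A * δ ^ 2 := by positivity
  rw [← integral_mul_const, ← integral_add_right_eq_self _ ((A * δ / (2 / 3 + A * δ ^ 2)) • w)]
  refine integral_congr_ae (Eventually.of_forall fun u => ?_)
  beta_reduce
  unfold gx sq
  rw [← Real.exp_add, ← Real.exp_add]
  congr 1
  simp only [Finset.mul_sum, ← Finset.sum_neg_distrib, ← Finset.sum_add_distrib, Pi.sub_apply,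
    Pi.smul_apply, smul_eq_mul, Pi.add_apply]
  refine Finset.sum_congr rfl fun b _ => ?_
  field_simp
  ring

lemma sq_le_two (x y : Fin n → ℝ) : sq y ≤ 2 * sq (y - (1 / 4 : ℝ) • x) + 1 / 8 * sq x := by
  unfold sq
  rw [Finset.mul_sum, Finset.mul_sum, ← Finset.sum_add_distrib]
  refine Finset.sum_le_sum fun b _ => ?_
  simp only [Pi.sub_apply, Pi.smul_apply, smul_eq_mul]
  nlinarith [sq_nonneg (y b - 1 / 4 * x b - 1 / 4 * x b)]

lemma gx_two {c : ℝ} (hc : 0 < c) (x y : Fin n → ℝ) :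
    gx c x * gx (2 / 3) (y - (1 / 4 : ℝ) • x) ≤ gx (c / 2) x * gx (min (1 / 3) (4 * c)) y := by
  unfold gx
  rw [← Real.exp_add, ← Real.exp_add]
  refine Real.exp_le_exp.2 ?_
  have h1 := sq_le_two x y
  have h2 := sq_nonneg' x
  have h3 := sq_nonneg' (y - (1 / 4 : ℝ) • x)
  have h4 := min_le_left (1 / 3) (4 * c)
  have h5 := min_le_right (1 / 3) (4 * c)
  have h6 : 0 < min (1 / 3) (4 * c) := by positivity
  have h7 := mul_le_mul_of_nonneg_left h1 h6.le
  have h8 := mul_le_mul_of_nonneg_right h4 h3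
  have h9 := mul_le_mul_of_nonneg_right h5 h2
  nlinarith

/-- the coefficient of the kernel -/
def Af (δ : ℝ) : ℝ := 5 / 8 / (1 - δ ^ 2)

lemma Af_ge {δ : ℝ} (h0 : 0 ≤ δ) (h1 : δ ≤ 1 / 4) : 5 / 8 ≤ Af δ := by
  unfold Af
  have h2 : 0 < 1 - δ ^ 2 := by nlinarith
  rw [le_div_iff₀ h2]
  nlinarith

lemma Af_le {δ : ℝ} (h0 : 0 ≤ δ) (h1 : δ ≤ 1 / 4) : Af δ ≤ 2 / 3 := by
  unfold Af
  have h2 : 0 < 1 - δ ^ 2 := by nlinarith
  rw [div_le_iff₀ h2]
  nlinarith

lemma Af_step {δ : ℝ} (h0 : 0 ≤ δ) (h1 : δ ≤ 1 / 4) :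
    2 / 3 * Af δ / (2 / 3 + Af δ * δ ^ 2) = Af (1 / 4 * δ) := by
  unfold Af
  have h2 : 0 < 1 - δ ^ 2 := by nlinarith
  have h3 : 0 < 1 - (1 / 4 * δ) ^ 2 := by nlinarith
  have h4 : 2 / 3 + 5 / 8 / (1 - δ ^ 2) * δ ^ 2 = 2 / 3 * (1 - (1 / 4 * δ) ^ 2) / (1 - δ ^ 2) := by
    field_simp
    ring
  rw [h4]
  field_simp

/-- the ratio of the correlations -/
def dl (D : ℕ) : ℝ := (1 / 4) ^ (D + 1)

lemma dl_pos (D : ℕ) : 0 < dl D := by unfold dl; positivity

lemma dl_le (D : ℕ) : dl D ≤ 1 / 4 := by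
  unfold dl
  calc (1 / 4 : ℝ) ^ (D + 1) ≤ (1 / 4) ^ 1 :=
        pow_le_pow_of_le_one (by norm_num) (by norm_num) (by omega)
    _ = _ := pow_one _

lemma dl_succ (D : ℕ) : dl (D + 1) = 1 / 4 * dl D := by
  unfold dl
  rw [pow_succ]
  ring

/-- Fubini -/
lemma swap {f : (Fin n → ℝ) → ℝ} (hf : GB f) {A δ : ℝ} (hA : 0 < A) (z : Fin n → ℝ) :
    ∫ y, (∫ x, f x * gx (1 / 8) x * gx (2 / 3) (y - (1 / 4 : ℝ) • x)) * gx A (z - δ • y) =
      ∫ x, f x * gx (1 / 8) x *
        ∫ y, gx (2 / 3) (y - (1 / 4 : ℝ) • x) * gx A (z - δ • y) := by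
  obtain ⟨C, c, hC, hc, hb⟩ := hf.bd
  have hcont : Continuous fun p : (Fin n → ℝ) × (Fin n → ℝ) =>
      f p.2 * gx (1 / 8) p.2 * gx (2 / 3) (p.1 - (1 / 4 : ℝ) • p.2) * gx A (z - δ • p.1) := by
    have c1 : Continuous fun p : (Fin n → ℝ) × (Fin n → ℝ) => p.1 - (1 / 4 : ℝ) • p.2 := by
      fun_prop
    have c2 : Continuous fun p : (Fin n → ℝ) × (Fin n → ℝ) => z - δ • p.1 := by fun_prop
    exact (((hf.cont.comp continuous_snd).mul ((gx_cont _).comp continuous_snd)).mul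
      ((gx_cont _).comp c1)).mul ((gx_cont _).comp c2)
  have hint : Integrable (fun p : (Fin n → ℝ) × (Fin n → ℝ) =>
      f p.2 * gx (1 / 8) p.2 * gx (2 / 3) (p.1 - (1 / 4 : ℝ) • p.2) * gx A (z - δ • p.1))
      (volume.prod volume) := by
    have h1 : Integrable (fun p : (Fin n → ℝ) × (Fin n → ℝ) =>
        gx (min (1 / 3) (4 * c)) p.1 * (C * gx (c / 2) p.2)) (volume.prod volume) :=
      (gx_int (n := n) (by positivity)).mul_prod ((gx_int (n := n) (by positivity)).const_mul C)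
    refine h1.mono' hcont.aestronglyMeasurable (Eventually.of_forall fun p => ?_)
    rw [Real.norm_eq_abs, abs_mul, abs_mul, abs_mul, abs_of_pos (gx_pos _ _),
      abs_of_pos (gx_pos (2 / 3) _), abs_of_pos (gx_pos A _)]
    have e1 := hb p.2
    have e2 : gx (1 / 8) p.2 ≤ 1 := gx_le_one (by norm_num) _
    have e3 : gx A (z - δ • p.1) ≤ 1 := gx_le_one hA.le _
    have e4 := gx_two hc p.2 p.1
    have p1 := gx_pos (1 / 8) p.2
    have p2 := gx_pos (2 / 3) (p.1 - (1 / 4 : ℝ) • p.2)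
    have p3 := gx_pos A (z - δ • p.1)
    have s1 : |f p.2| * gx (1 / 8) p.2 ≤ C * gx c p.2 :=
      (mul_le_of_le_one_right (abs_nonneg _) e2).trans e1
    calc |f p.2| * gx (1 / 8) p.2 * gx (2 / 3) (p.1 - (1 / 4 : ℝ) • p.2) * gx A (z - δ • p.1)
        ≤ |f p.2| * gx (1 / 8) p.2 * gx (2 / 3) (p.1 - (1 / 4 : ℝ) • p.2) :=
          mul_le_of_le_one_right (mul_nonneg (mul_nonneg (abs_nonneg _) p1.le) p2.le) e3
      _ ≤ C * gx c p.2 * gx (2 / 3) (p.1 - (1 / 4 : ℝ) • p.2) :=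
          mul_le_mul_of_nonneg_right s1 p2.le
      _ = C * (gx c p.2 * gx (2 / 3) (p.1 - (1 / 4 : ℝ) • p.2)) := by ring
      _ ≤ C * (gx (c / 2) p.2 * gx (min (1 / 3) (4 * c)) p.1) :=
          mul_le_mul_of_nonneg_left e4 hC
      _ = _ := by ring
  have h2 : ∀ y, (∫ x, f x * gx (1 / 8) x * gx (2 / 3) (y - (1 / 4 : ℝ) • x)) * gx A (z - δ • y) =
      ∫ x, f x * gx (1 / 8) x * gx (2 / 3) (y - (1 / 4 : ℝ) • x) * gx A (z - δ • y) := fun y =>
    (integral_mul_const _ _).symm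
  simp only [h2]
  rw [integral_integral_swap hint]
  refine integral_congr_ae (Eventually.of_forall fun x => ?_)
  beta_reduce
  rw [← integral_const_mul]
  refine integral_congr_ae (Eventually.of_forall fun y => ?_)
  beta_reduce
  ring

/-- **the kernel of the iterates** -/
theorem kernel : ∀ D : ℕ, ∃ K : ℝ, 0 < K ∧ ∀ f : (Fin n → ℝ) → ℝ, GB f → ∀ y,
    La^[D + 1] f y = K * (gx (-(1 / 8)) y *
      ∫ x, f x * gx (1 / 8) x * gx (Af (dl D)) (y - dl D • x))
  | 0 => ⟨1, one_pos, fun f _ y => by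
    have e1 : dl 0 = 1 / 4 := by unfold dl; norm_num
    have e2 : Af (1 / 4) = 2 / 3 := by unfold Af; norm_num
    rw [e1, e2, one_mul]
    exact La_eq f y⟩
  | D + 1 => by
    obtain ⟨K, hK, h⟩ := kernel D
    have hA0 : 5 / 8 ≤ Af (dl D) := Af_ge (dl_pos D).le (dl_le D)
    have hA : 0 < Af (dl D) := by linarith
    have hB : 0 < 2 / 3 + Af (dl D) * dl D ^ 2 := by positivity
    refine ⟨K * ∫ u : Fin n → ℝ, gx (2 / 3 + Af (dl D) * dl D ^ 2) u, by
      have := gx_int_pos (n := n) hB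
      positivity, fun f hf z => ?_⟩
    have h1 : La^[D + 1 + 1] f z = La^[D + 1] (La f) z := by
      rw [Function.iterate_succ_apply]
    rw [h1, h (La f) (La_gb hf) z]
    have h2 : ∀ y, La f y * gx (1 / 8) y * gx (Af (dl D)) (z - dl D • y) =
        (∫ x, f x * gx (1 / 8) x * gx (2 / 3) (y - (1 / 4 : ℝ) • x)) *
          gx (Af (dl D)) (z - dl D • y) := by
      intro y
      rw [La_eq]
      have h3 : gx (-(1 / 8)) y * gx (1 / 8) y = 1 := by
        rw [gx_mul]
        unfold gx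
        norm_num
      linear_combination ((∫ x, f x * gx (1 / 8) x * gx (2 / 3) (y - (1 / 4 : ℝ) • x)) *
          gx (Af (dl D)) (z - dl D • y)) * h3
    simp only [h2]
    rw [swap hf hA z]
    have h4 : ∀ x : Fin n → ℝ, ∫ y, gx (2 / 3) (y - (1 / 4 : ℝ) • x) *
        gx (Af (dl D)) (z - dl D • y) =
        (∫ u : Fin n → ℝ, gx (2 / 3 + Af (dl D) * dl D ^ 2) u) *
          gx (Af (dl (D + 1))) (z - dl (D + 1) • x) := by
      intro x
      rw [← integral_add_right_eq_self _ ((1 / 4 : ℝ) • x)]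
      have h5 := conv_gauss (n := n) (δ := dl D) hA (z - dl (D + 1) • x)
      rw [Af_step (dl_pos D).le (dl_le D), ← dl_succ] at h5
      rw [← h5]
      refine integral_congr_ae (Eventually.of_forall fun u => ?_)
      beta_reduce
      rw [add_sub_cancel_right]
      congr 2
      rw [dl_succ]
      funext b
      simp only [Pi.sub_apply, Pi.smul_apply, Pi.add_apply, smul_eq_mul]
      ring
    simp only [h4]
    have h6 : ∀ x : Fin n → ℝ, f x * gx (1 / 8) x *
        ((∫ u : Fin n → ℝ, gx (2 / 3 + Af (dl D) * dl D ^ 2) u) *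
          gx (Af (dl (D + 1))) (z - dl (D + 1) • x)) =
        (∫ u : Fin n → ℝ, gx (2 / 3 + Af (dl D) * dl D ^ 2) u) *
          (f x * gx (1 / 8) x * gx (Af (dl (D + 1))) (z - dl (D + 1) • x)) := fun x => by ring
    simp only [h6]
    rw [integral_const_mul]
    ring

/-! ### The contraction -/

lemma abs_exp_sub_one (u : ℝ) : |Real.exp u - 1| ≤ |u| * Real.exp |u| := by
  rcases le_or_gt 0 u with h | h
  · rw [abs_of_nonneg h, abs_of_nonneg (sub_nonneg.2 (Real.one_le_exp h))]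
    have h1 := Real.add_one_le_exp (-u)
    have h2 : Real.exp (-u) * Real.exp u = 1 := by rw [← Real.exp_add]; simp
    have h3 := mul_le_mul_of_nonneg_right h1 (Real.exp_pos u).le
    rw [h2] at h3
    linarith
  · rw [abs_of_neg h, abs_of_nonpos (sub_nonpos.2 (Real.exp_le_one_iff.2 h.le))]
    have h1 := Real.add_one_le_exp u
    have h2 : 1 ≤ Real.exp (-u) := Real.one_le_exp (by linarith)
    have h3 : -u * 1 ≤ -u * Real.exp (-u) := mul_le_mul_of_nonneg_left h2 (by linarith)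
    linarith

lemma ip_le (x y : Fin n → ℝ) : |∑ b, x b * y b| ≤ (sq x + sq y) / 2 := by
  unfold sq
  rw [← Finset.sum_add_distrib, Finset.sum_div]
  refine (Finset.abs_sum_le_sum_abs _ _).trans (Finset.sum_le_sum fun b _ => ?_)
  rw [abs_le]
  constructor <;> nlinarith [sq_nonneg (x b + y b), sq_nonneg (x b - y b)]

lemma sq_sub (δ : ℝ) (x y : Fin n → ℝ) :
    sq (y - δ • x) = sq y - 2 * δ * (∑ b, x b * y b) + δ ^ 2 * sq x := by
  unfold sq
  rw [Finset.mul_sum, Finset.mul_sum, ← Finset.sum_sub_distrib, ← Finset.sum_add_distrib]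
  refine Finset.sum_congr rfl fun b _ => ?_
  simp only [Pi.sub_apply, Pi.smul_apply, smul_eq_mul]
  ring

lemma diff_bound {δ A η : ℝ} (h0 : 0 ≤ δ) (h1 : δ ≤ 1 / 4) (hA : 5 / 8 ≤ A) (hA' : A ≤ 2 / 3)
    (hη : 0 < η) (x y : Fin n → ℝ) : |gx A (y - δ • x) - gx A y| ≤
      2 * δ / η * Real.exp ((η + 2 * δ) * (sq x + sq y)) * gx (5 / 8) y := by
  obtain ⟨s, hs⟩ : ∃ s, s = sq x + sq y := ⟨_, rfl⟩
  have hs0 : 0 ≤ s := by rw [hs]; exact add_nonneg (sq_nonneg' x) (sq_nonneg' y)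
  obtain ⟨u, hu⟩ : ∃ u, u = 2 * A * δ * (∑ b, x b * y b) - A * δ ^ 2 * sq x := ⟨_, rfl⟩
  have e1 : gx A (y - δ • x) = gx A y * Real.exp u := by
    unfold gx
    rw [← Real.exp_add, sq_sub, hu]
    congr 1
    ring
  have hx := sq_nonneg' x
  have hy := sq_nonneg' y
  have hu2 : |u| ≤ 2 * δ * s := by
    rw [hu]
    refine (abs_sub _ _).trans ?_
    have h2 := ip_le x y
    rw [abs_mul, abs_of_nonneg (by positivity : (0 : ℝ) ≤ 2 * A * δ),
      abs_of_nonneg (by positivity : (0 : ℝ) ≤ A * δ ^ 2 * sq x)]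
    have h3 : 2 * A * δ * |∑ b, x b * y b| ≤ 2 * A * δ * ((sq x + sq y) / 2) :=
      mul_le_mul_of_nonneg_left h2 (by positivity)
    rw [← hs] at h3
    have h4 : A * δ ^ 2 * sq x ≤ A * δ * (1 / 4) * s := by
      have h5 : sq x ≤ s := by rw [hs]; linarith
      calc A * δ ^ 2 * sq x = A * δ * δ * sq x := by ring
        _ ≤ A * δ * (1 / 4) * s := by gcongr
    have h5 : A * δ * s ≤ 2 / 3 * δ * s := by gcongr
    nlinarith
  have e2 : |gx A (y - δ • x) - gx A y| = gx A y * |Real.exp u - 1| := by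
    rw [e1, ← mul_sub_one, abs_mul, abs_of_pos (gx_pos A y)]
  have h6 : |Real.exp u - 1| ≤ 2 * δ / η * Real.exp ((η + 2 * δ) * s) := by
    refine (abs_exp_sub_one u).trans ?_
    have h7 : Real.exp |u| ≤ Real.exp (2 * δ * s) := Real.exp_le_exp.2 hu2
    have h8 : s ≤ 1 / η * Real.exp (η * s) := by
      have h9 := Real.add_one_le_exp (η * s)
      rw [div_mul_eq_mul_div, le_div_iff₀ hη]
      linarith
    calc |u| * Real.exp |u| ≤ 2 * δ * s * Real.exp (2 * δ * s) :=
          mul_le_mul hu2 h7 (Real.exp_pos _).le (by positivity)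
      _ ≤ 2 * δ * (1 / η * Real.exp (η * s)) * Real.exp (2 * δ * s) := by gcongr
      _ = 2 * δ / η * (Real.exp (η * s) * Real.exp (2 * δ * s)) := by ring
      _ = _ := by
        rw [← Real.exp_add]
        congr 2
        ring
  rw [e2, ← hs, mul_comm]
  exact mul_le_mul h6 (gx_anti hA y) (gx_pos A y).le (by positivity)

lemma gx_exp (a b : ℝ) (x : Fin n → ℝ) : gx a x * Real.exp (b * sq x) = gx (a - b) x := by
  unfold gx
  rw [← Real.exp_add]
  congr 1
  ring

/-- the averages of functions with vanishing mean -/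
lemma J_bound {g : (Fin n → ℝ) → ℝ} (hg : GB g) (h0 : ∫ x, g x * gx (1 / 8) x = 0) :
    ∃ (C : ℝ) (δ₀ : ℝ), 0 ≤ C ∧ 0 < δ₀ ∧ ∀ δ : ℝ, 0 ≤ δ → δ ≤ δ₀ → δ ≤ 1 / 4 → ∀ y,
      |∫ x, g x * gx (1 / 8) x * gx (Af δ) (y - δ • x)| ≤ C * δ * gx (1 / 2) y := by
  obtain ⟨C, c, hC, hc, hb⟩ := hg.bd
  obtain ⟨η, hηd⟩ : ∃ η, η = min (c / 4) (1 / 16) := ⟨_, rfl⟩
  have hη : 0 < η := by rw [hηd]; positivity
  have hη1 : η ≤ c / 4 := by rw [hηd]; exact min_le_left _ _
  have hη2 : η ≤ 1 / 16 := by rw [hηd]; exact min_le_right _ _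
  have hI : 0 < ∫ x, gx (n := n) (c / 2) x := gx_int_pos (by positivity)
  refine ⟨2 / η * (C * ∫ x, gx (n := n) (c / 2) x), η / 2, by positivity, by positivity,
    fun δ hδ0 hδ1 hδ2 y => ?_⟩
  have hA := Af_ge hδ0 hδ2
  have hA' := Af_le hδ0 hδ2
  have i0 : Integrable fun x => g x * gx (1 / 8) x := by
    refine hg.int.norm.mono' (hg.cont.mul (gx_cont _)).aestronglyMeasurable
      (Eventually.of_forall fun x => ?_)
    rw [norm_mul]
    refine mul_le_of_le_one_right (norm_nonneg _) ?_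
    rw [Real.norm_eq_abs, abs_of_pos (gx_pos _ _)]
    exact gx_le_one (by norm_num) _
  have i1 := conv_int i0 (hg.cont.mul (gx_cont _)) (a := Af δ) (by linarith) y δ
  have e1 : ∫ x, g x * gx (1 / 8) x * gx (Af δ) (y - δ • x) =
      ∫ x, g x * gx (1 / 8) x * (gx (Af δ) (y - δ • x) - gx (Af δ) y) := by
    have e2 : ∀ x, g x * gx (1 / 8) x * (gx (Af δ) (y - δ • x) - gx (Af δ) y) =
        g x * gx (1 / 8) x * gx (Af δ) (y - δ • x) - g x * gx (1 / 8) x * gx (Af δ) y :=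
      fun x => by ring
    simp only [e2]
    rw [integral_sub i1 (i0.mul_const _), integral_mul_const, h0, zero_mul, sub_zero]
  have i2 : Integrable fun x => g x * gx (1 / 8) x * (gx (Af δ) (y - δ • x) - gx (Af δ) y) := by
    have e2 : (fun x => g x * gx (1 / 8) x * (gx (Af δ) (y - δ • x) - gx (Af δ) y)) =
        fun x => g x * gx (1 / 8) x * gx (Af δ) (y - δ • x) - g x * gx (1 / 8) x * gx (Af δ) y :=
      funext fun x => by ring
    rw [e2]
    exact i1.sub (i0.mul_const _)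
  have hpt : ∀ x, |g x * gx (1 / 8) x * (gx (Af δ) (y - δ • x) - gx (Af δ) y)| ≤
      2 / η * C * δ * gx (1 / 2) y * gx (c / 2) x := by
    intro x
    rw [abs_mul, abs_mul, abs_of_pos (gx_pos _ x)]
    have h1 := diff_bound hδ0 hδ2 hA hA' hη x y
    have h2 : Real.exp ((η + 2 * δ) * (sq x + sq y)) ≤
        Real.exp (2 * η * sq x) * Real.exp (2 * η * sq y) := by
      rw [← Real.exp_add]
      refine Real.exp_le_exp.2 ?_
      have h3 : 0 ≤ sq x + sq y := add_nonneg (sq_nonneg' x) (sq_nonneg' y)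
      have h4 : η + 2 * δ ≤ 2 * η := by linarith
      have := mul_le_mul_of_nonneg_right h4 h3
      linarith
    have h3 : |g x| * gx (1 / 8) x ≤ C * gx c x :=
      (mul_le_of_le_one_right (abs_nonneg _) (gx_le_one (by norm_num) _)).trans (hb x)
    have h5 : gx c x * Real.exp (2 * η * sq x) ≤ gx (c / 2) x := by
      rw [gx_exp]
      exact gx_anti (by linarith) x
    have h6 : gx (5 / 8) y * Real.exp (2 * η * sq y) ≤ gx (1 / 2) y := by
      rw [gx_exp]
      exact gx_anti (by linarith) y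
    have p1 := gx_pos (5 / 8) y
    have p2 := gx_pos c x
    have p3 := gx_pos (1 / 2) y
    have p4 := gx_pos (c / 2) x
    have p5 := Real.exp_pos (2 * η * sq x)
    have p6 := Real.exp_pos (2 * η * sq y)
    calc |g x| * gx (1 / 8) x * |gx (Af δ) (y - δ • x) - gx (Af δ) y|
        ≤ (C * gx c x) * (2 * δ / η * Real.exp ((η + 2 * δ) * (sq x + sq y)) * gx (5 / 8) y) :=
          mul_le_mul h3 h1 (abs_nonneg _) (by positivity)
      _ ≤ (C * gx c x) * (2 * δ / η * (Real.exp (2 * η * sq x) * Real.exp (2 * η * sq y)) *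
            gx (5 / 8) y) := by gcongr
      _ = 2 / η * C * δ * (gx (5 / 8) y * Real.exp (2 * η * sq y)) *
            (gx c x * Real.exp (2 * η * sq x)) := by ring
      _ ≤ 2 / η * C * δ * gx (1 / 2) y * gx (c / 2) x := by gcongr
  rw [e1]
  refine abs_integral_le_integral_abs.trans ((integral_mono i2.abs
    ((gx_int (by positivity)).const_mul _) hpt).trans (le_of_eq ?_))
  rw [integral_const_mul]
  ring

/-- the eigenvalue -/
def lam (n : ℕ) : ℝ := ∫ x : Fin n → ℝ, gx (2 / 3) x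

lemma lam_pos (n : ℕ) : 0 < lam n := gx_int_pos (by norm_num)

lemma La_eig : La (gx (n := n) (1 / 2)) = fun y => lam n * gx (1 / 2) y := by
  funext y
  unfold La lam
  have h1 : ∫ x : Fin n → ℝ, gx (1 / 2) x * gx (1 / 6) (y - x) =
      (∫ x : Fin n → ℝ, gx (2 / 3) x) * gx (1 / 8) y := by
    rw [← integral_mul_const, ← integral_add_right_eq_self _ ((1 / 4 : ℝ) • y)]
    refine integral_congr_ae (Eventually.of_forall fun u => ?_)
    beta_reduce
    unfold gx sq
    rw [← Real.exp_add, ← Real.exp_add]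
    congr 1
    simp only [Finset.mul_sum, ← Finset.sum_neg_distrib, ← Finset.sum_add_distrib, Pi.sub_apply,
      Pi.smul_apply, smul_eq_mul, Pi.add_apply]
    refine Finset.sum_congr rfl fun b _ => ?_
    ring
  rw [h1]
  have h2 : gx (3 / 8) y * gx (1 / 8) y = gx (1 / 2) y := by
    rw [gx_mul]
    norm_num
  linear_combination (∫ x : Fin n → ℝ, gx (2 / 3) x) * h2

lemma iter_eig (D : ℕ) : La^[D] (gx (n := n) (1 / 2)) = fun y => lam n ^ D * gx (1 / 2) y := by
  induction D with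
  | zero =>
    funext y
    simp
  | succ D ih =>
    rw [Function.iterate_succ_apply', ih, La_smul, La_eig]
    funext y
    ring

/-- the constant of the kernel -/
lemma K_le {D : ℕ} {K : ℝ} (hK : 0 < K) (h : ∀ f : (Fin n → ℝ) → ℝ, GB f → ∀ y,
    La^[D + 1] f y = K * (gx (-(1 / 8)) y *
      ∫ x, f x * gx (1 / 8) x * gx (Af (dl D)) (y - dl D • x))) :
    K * ∫ x, gx (n := n) 1 x ≤ lam n ^ (D + 1) := by
  have h1 := h (gx (1 / 2)) (gb_gx (by norm_num)) 0
  rw [iter_eig] at h1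
  beta_reduce at h1
  have e0 : ∀ a : ℝ, gx (n := n) a 0 = 1 := fun a => by
    unfold gx sq
    simp
  rw [e0, e0, one_mul, mul_one] at h1
  rw [h1]
  refine mul_le_mul_of_nonneg_left ?_ hK.le
  have hA := Af_ge (dl_pos D).le (dl_le D)
  have hA' := Af_le (dl_pos D).le (dl_le D)
  have e1 : ∀ x : Fin n → ℝ, gx (1 / 2) x * gx (1 / 8) x * gx (Af (dl D)) (0 - dl D • x) =
      gx (5 / 8 + Af (dl D) * dl D ^ 2) x := by
    intro x
    have e2 : gx (Af (dl D)) (0 - dl D • x) = gx (Af (dl D) * dl D ^ 2) x := by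
      unfold gx
      congr 2
      have : sq (0 - dl D • x) = dl D ^ 2 * sq x := by
        rw [sq_sub]
        unfold sq
        simp
      rw [this]
      ring
    rw [e2, gx_mul, gx_mul]
    norm_num
  simp only [e1]
  have h2 : 5 / 8 + Af (dl D) * dl D ^ 2 ≤ 1 := by
    have h3 := dl_le D
    have h4 := dl_pos D
    have h5 : dl D ^ 2 ≤ (1 / 4) ^ 2 := pow_le_pow_left₀ h4.le h3 2
    have h6 : Af (dl D) * dl D ^ 2 ≤ 2 / 3 * (1 / 4) ^ 2 := by gcongr
    linarith
  have h7 : 0 < 5 / 8 + Af (dl D) * dl D ^ 2 := by positivity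
  exact integral_mono (gx_int one_pos) (gx_int h7) fun x => gx_anti h2 x

/-- **the iterates converge to the projection on the eigenfunction** -/
theorem contract {f : (Fin n → ℝ) → ℝ} (hf : GB f) : ∀ ε : ℝ, 0 < ε → ∃ D0 : ℕ, ∀ D : ℕ,
    D0 ≤ D → ∀ y, |La^[D] f y - (∫ x, f x * gx (1 / 8) x) / (∫ x, gx (n := n) (5 / 8) x) *
      (lam n ^ D * gx (1 / 2) y)| ≤ ε * lam n ^ D * gx (3 / 8) y := by
  obtain ⟨L, hL⟩ : ∃ L, L = (∫ x, f x * gx (1 / 8) x) / (∫ x, gx (n := n) (5 / 8) x) := ⟨_, rfl⟩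
  rw [← hL]
  have hg1 : GB fun x : Fin n → ℝ => L * gx (1 / 2) x := (gb_gx (by norm_num)).smul L
  have hg := hf.sub hg1
  have hI : 0 < ∫ x, gx (n := n) (5 / 8) x := gx_int_pos (by norm_num)
  have hi : ∀ {u : (Fin n → ℝ) → ℝ}, GB u → Integrable fun x => u x * gx (1 / 8) x := by
    intro u hu
    refine hu.int.norm.mono' (hu.cont.mul (gx_cont _)).aestronglyMeasurable
      (Eventually.of_forall fun x => ?_)
    rw [norm_mul]
    refine mul_le_of_le_one_right (norm_nonneg _) ?_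
    rw [Real.norm_eq_abs, abs_of_pos (gx_pos _ _)]
    exact gx_le_one (by norm_num) _
  have h0 : ∫ x, (f x - L * gx (1 / 2) x) * gx (1 / 8) x = 0 := by
    have e1 : ∀ x, (f x - L * gx (1 / 2) x) * gx (1 / 8) x =
        f x * gx (1 / 8) x - L * gx (1 / 2) x * gx (1 / 8) x := fun x => by ring
    simp only [e1]
    rw [integral_sub (hi hf) (hi hg1)]
    have e2 : ∀ x : Fin n → ℝ, L * gx (1 / 2) x * gx (1 / 8) x = L * gx (5 / 8) x := fun x => by
      rw [mul_assoc, gx_mul]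
      norm_num
    simp only [e2]
    rw [integral_const_mul, hL, div_mul_cancel₀ _ hI.ne', sub_self]
  obtain ⟨C, δ₀, hC, hδ₀, hJ⟩ := J_bound hg h0
  have hI1 : 0 < ∫ x, gx (n := n) 1 x := gx_int_pos one_pos
  intro ε hε
  have hlim : Tendsto (fun D : ℕ => dl D) atTop (𝓝 0) := by
    have h1 : Tendsto (fun D : ℕ => (1 / 4 : ℝ) ^ D) atTop (𝓝 0) :=
      tendsto_pow_atTop_nhds_zero_of_lt_one (by norm_num) (by norm_num)
    exact (tendsto_add_atTop_iff_nat 1).2 h1
  have hev : ∀ᶠ D : ℕ in atTop, dl D ≤ min δ₀ (ε * (∫ x, gx (n := n) 1 x) / (C + 1)) :=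
    hlim.eventually (ge_mem_nhds (by positivity))
  obtain ⟨D0, hD0⟩ := eventually_atTop.1 hev
  refine ⟨D0 + 1, fun D hD y => ?_⟩
  obtain ⟨D', rfl⟩ : ∃ D', D = D' + 1 := ⟨D - 1, by omega⟩
  have hd := hD0 D' (by omega)
  rw [le_min_iff] at hd
  obtain ⟨hd1, hd2⟩ := hd
  rw [le_div_iff₀ (by positivity)] at hd2
  obtain ⟨K, hK, hker⟩ := kernel (n := n) D'
  have hKl := K_le hK hker
  have e3 : La^[D' + 1] f y - L * (lam n ^ (D' + 1) * gx (1 / 2) y) =
      La^[D' + 1] (fun x => f x - L * gx (1 / 2) x) y := by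
    rw [iter_sub hf hg1, iter_smul, iter_eig]
  rw [e3, hker _ hg y, abs_mul, abs_mul, abs_of_pos hK, abs_of_pos (gx_pos _ y)]
  have h1 := hJ (dl D') (dl_pos D').le hd1 (dl_le D') y
  have hdp := dl_pos D'
  have p1 := gx_pos (-(1 / 8)) y
  have p2 := gx_pos (3 / 8) y
  calc K * (gx (-(1 / 8)) y *
        |∫ x, (f x - L * gx (1 / 2) x) * gx (1 / 8) x * gx (Af (dl D')) (y - dl D' • x)|)
      ≤ K * (gx (-(1 / 8)) y * (C * dl D' * gx (1 / 2) y)) := by gcongr
    _ = K * (C * dl D') * (gx (-(1 / 8)) y * gx (1 / 2) y) := by ring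
    _ = K * (C * dl D') * gx (3 / 8) y := by
        rw [gx_mul]
        norm_num
    _ ≤ K * (ε * ∫ x, gx (n := n) 1 x) * gx (3 / 8) y :=
        mul_le_mul_of_nonneg_right (mul_le_mul_of_nonneg_left (by nlinarith) hK.le) p2.le
    _ = ε * (K * ∫ x, gx (n := n) 1 x) * gx (3 / 8) y := by ring
    _ ≤ ε * lam n ^ (D' + 1) * gx (3 / 8) y := by gcongr

end

end Pool.Agent.N565.T3U
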