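import Mathlib
import Pool.Agent.N565.T3U.Gau
import Pool.Agent.N681.T3.B2
import Pool.Agent.N109.T3.VolB
import Pool.Agent.N838.T3.CovF
import Pool.Agent.N681.T3.U4

/-!
# The expectations in a block, uniformly in the volume
-/

open MeasureTheory Filter Matrix Pool.Agent.N991.MK Pool.Agent.N989.MK
open scoped Matrix.Norms.Frobenius Topology
open Pool.Agent.H906R3.YM Pool.Agent.W793.YM Pool.Agent.TH618.YM Pool.Agent.N984.TW
open Pool.Agent.N109.T3
open Pool.Agent.N839.T3 (SD)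
open Pool.Agent.N565.MK (Nc)
open Pool.Agent.N838.T3 (lft KK env envE env_eq int_lft cont_lft lft_self)

namespace Pool.Agent.N565.T3U

set_option linter.unusedSectionVars false

noncomputable section

/-! ### The free theory -/

section free

variable {n : ℕ}

lemma ga_gx (a : ℝ) : Pool.Agent.N681.T3.ga (n := n) a = gx a := by
  funext x
  unfold Pool.Agent.N681.T3.ga gx sq
  congr 1
  ring

lemma gs_gx : gs (n := n) = gx (1 / 2) := by
  funext x
  unfold gs gx sq
  congr 1
  ring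

lemma cvR_gx {a b : ℝ} (ha : 0 < a) (hb : 0 < b) (A C : ℝ) :
    cvR (n := n) (fun x => A * gx a x) (fun x => C * gx b x) =
      fun x => A * C * (∫ y : Fin n → ℝ, gx (a + b) y) * gx (a * b / (a + b)) x := by
  have h := Pool.Agent.N681.T3.cvR_ga (n := n) ha hb
  simp only [ga_gx] at h
  rw [Pool.Agent.N681.T3.cvR_smul2, h]
  funext x
  ring

/-- the averaging of a square with one block of the weight `Γ` -/
def lftR (F Γ : (Fin n → ℝ) → ℝ) (x : Fin n → ℝ) : ℝ :=
  cvR (cvR F F) (cvR F F) x ^ 3 * cvR (cvR F (cvR F F)) Γ x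

lemma cvR_La (C : ℝ) (Γ : (Fin n → ℝ) → ℝ) (y : Fin n → ℝ) :
    cvR (fun x => C * gx (1 / 6) x) Γ y = C * ∫ x, Γ x * gx (1 / 6) (y - x) := by
  unfold Pool.Agent.N109.T3.cvR
  rw [← integral_const_mul,
    ← integral_sub_left_eq_self (fun z => C * (Γ z * gx (1 / 6) (y - z))) volume y]
  refine integral_congr_ae (Eventually.of_forall fun x => ?_)
  beta_reduce
  rw [sub_sub_cancel]
  ring

lemma lftR_eq {A : ℝ} (hA : 0 < A) : ∃ k : ℝ, 0 < k ∧ ∀ Γ : (Fin n → ℝ) → ℝ,
    lftR (fun x => A * gx (1 / 2) x) Γ = fun x => k * La Γ x := by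
  have hI1 : 0 < ∫ y : Fin n → ℝ, gx (1 / 2 + 1 / 2) y := gx_int_pos (by norm_num)
  have hI2 : 0 < ∫ y : Fin n → ℝ, gx (1 / 4 + 1 / 4) y := gx_int_pos (by norm_num)
  have hI3 : 0 < ∫ y : Fin n → ℝ, gx (1 / 2 + 1 / 4) y := gx_int_pos (by norm_num)
  obtain ⟨I1, e1⟩ : ∃ I, I = ∫ y : Fin n → ℝ, gx (1 / 2 + 1 / 2) y := ⟨_, rfl⟩
  obtain ⟨I2, e2⟩ : ∃ I, I = ∫ y : Fin n → ℝ, gx (1 / 4 + 1 / 4) y := ⟨_, rfl⟩
  obtain ⟨I3, e3⟩ : ∃ I, I = ∫ y : Fin n → ℝ, gx (1 / 2 + 1 / 4) y := ⟨_, rfl⟩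
  rw [← e1] at hI1
  rw [← e2] at hI2
  rw [← e3] at hI3
  have h1 : cvR (n := n) (fun x => A * gx (1 / 2) x) (fun x => A * gx (1 / 2) x) =
      fun x => (A * A * I1) * gx (1 / 4) x := by
    rw [cvR_gx (by norm_num) (by norm_num), ← e1]
    norm_num
  have h2 : cvR (n := n) (fun x => (A * A * I1) * gx (1 / 4) x)
      (fun x => (A * A * I1) * gx (1 / 4) x) =
      fun x => ((A * A * I1) * (A * A * I1) * I2) * gx (1 / 8) x := by
    rw [cvR_gx (by norm_num) (by norm_num), ← e2]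
    norm_num
  have h3 : cvR (n := n) (fun x => A * gx (1 / 2) x) (fun x => (A * A * I1) * gx (1 / 4) x) =
      fun x => (A * (A * A * I1) * I3) * gx (1 / 6) x := by
    rw [cvR_gx (by norm_num) (by norm_num), ← e3]
    norm_num
  refine ⟨((A * A * I1) * (A * A * I1) * I2) ^ 3 * (A * (A * A * I1) * I3), by positivity,
    fun Γ => ?_⟩
  funext x
  unfold lftR
  rw [h1, h2, h3, cvR_La]
  unfold La
  have h4 : gx (1 / 8) x ^ 3 = gx (3 / 8) x := by
    unfold gx
    rw [← Real.exp_nat_mul]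
    congr 1
    push_cast
    ring
  rw [mul_pow, h4]
  ring

lemma ZR_gx : ∀ j : ℕ, ∃ A : ℝ, 0 < A ∧ ZR (n := n) j (fun _ x => gs x) = fun x => A * gx (1 / 2) x
  | 0 => ⟨1, one_pos, by
      funext x
      change gs x = 1 * gx (1 / 2) x
      rw [gs_gx, one_mul]⟩
  | j + 1 => by
    obtain ⟨A, hA, h⟩ := ZR_gx j
    have hI1 : 0 < ∫ y : Fin n → ℝ, gx (1 / 2 + 1 / 2) y := gx_int_pos (by norm_num)
    have hI2 : 0 < ∫ y : Fin n → ℝ, gx (1 / 4 + 1 / 4) y := gx_int_pos (by norm_num)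
    obtain ⟨I1, e1⟩ : ∃ I, I = ∫ y : Fin n → ℝ, gx (1 / 2 + 1 / 2) y := ⟨_, rfl⟩
    obtain ⟨I2, e2⟩ : ∃ I, I = ∫ y : Fin n → ℝ, gx (1 / 4 + 1 / 4) y := ⟨_, rfl⟩
    rw [← e1] at hI1
    rw [← e2] at hI2
    have h1 : cvR (n := n) (fun x => A * gx (1 / 2) x) (fun x => A * gx (1 / 2) x) =
        fun x => (A * A * I1) * gx (1 / 4) x := by
      rw [cvR_gx (by norm_num) (by norm_num), ← e1]
      norm_num
    have h2 : cvR (n := n) (fun x => (A * A * I1) * gx (1 / 4) x)
        (fun x => (A * A * I1) * gx (1 / 4) x) =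
        fun x => ((A * A * I1) * (A * A * I1) * I2) * gx (1 / 8) x := by
      rw [cvR_gx (by norm_num) (by norm_num), ← e2]
      norm_num
    refine ⟨((A * A * I1) * (A * A * I1) * I2) ^ 4, by positivity, ?_⟩
    funext x
    change ∏ s : Fin 4,
      cvR (cvR (ZR j fun _ => gs) (ZR j fun _ => gs)) (cvR (ZR j fun _ => gs) (ZR j fun _ => gs))
        x = _
    have h' : ZR (n := n) j (fun _ => gs) = fun x => A * gx (1 / 2) x := h
    rw [h', h1, h2, Finset.prod_const, Finset.card_univ, Fintype.card_fin]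
    beta_reduce
    rw [mul_pow]
    congr 1
    unfold gx
    rw [← Real.exp_nat_mul]
    congr 1
    push_cast
    ring

/-- the weight of a block, averaged over larger and larger squares, in the free theory -/
def WLR (j : ℕ) (Γ : (Fin n → ℝ) → ℝ) : ℕ → (Fin n → ℝ) → ℝ
  | 0 => Γ
  | d + 1 => lftR (ZR (j + d) fun _ x => gs x) (WLR j Γ d)

lemma WLR_eq (j : ℕ) : ∀ d : ℕ, ∃ k : ℝ, 0 < k ∧ ∀ Γ : (Fin n → ℝ) → ℝ,
    WLR j Γ d = fun x => k * La^[d] Γ x
  | 0 => ⟨1, one_pos, fun Γ => by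
      funext x
      change Γ x = 1 * Γ x
      rw [one_mul]⟩
  | d + 1 => by
    obtain ⟨k, hk, h⟩ := WLR_eq j d
    obtain ⟨A, hA, hZ⟩ := ZR_gx (n := n) (j + d)
    obtain ⟨k', hk', h'⟩ := lftR_eq (n := n) hA
    refine ⟨k' * k, by positivity, fun Γ => ?_⟩
    change lftR (ZR (j + d) fun _ x => gs x) (WLR j Γ d) = _
    rw [hZ, h', h, La_smul, Function.iterate_succ_apply']
    funext x
    ring

end free

/-! ### Scaling limits -/

section scaling

variable {N n : ℕ} {G : Subgroup (UN N)} {B : Frame G n} {hG : IsClosed (G : Set (UN N))}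
  {ι : Type*} {l : Filter ι} {h : ι → ℝ} {f g : ι → G → ℝ} {F Γ : (Fin n → ℝ) → ℝ}

lemma SD_abs (H : SD B hG l h f F) : SD B hG l h (fun i x => |f i x|) (fun x => |F x|) where
  top := H.top
  cont := fun i => (H.cont i).abs
  lim := fun x => (H.lim x).abs
  dom := by
    obtain ⟨C, c, hC, hc, hd⟩ := H.dom
    exact ⟨C, c, hC, hc, hd.mono fun i hi z => by rw [abs_abs]; exact hi z⟩

lemma SD_sub (H : SD B hG l h f F) (K : SD B hG l h g Γ) :
    SD B hG l h (fun i x => f i x - g i x) (fun x => F x - Γ x) := by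
  refine (H.add (K.smul (tendsto_const_nhds (x := (-1 : ℝ))))).congr (fun i x => ?_) fun x => ?_
  · ring
  · ring

/-- uniqueness of the limit -/
lemma SD_unique [l.NeBot] (H : SD B hG l h f F) (K : SD B hG l h f Γ) (x : Fin n → ℝ) :
    F x = Γ x := tendsto_nhds_unique (H.lim x) (K.lim x)

/-- the scaling limits are bounded by Gaussians -/
lemma SD_gb [l.NeBot] (H : SD B hG l h f F) (hc : Continuous F) : GB F := by
  obtain ⟨C, c, hC, hc0, hd⟩ := H.dom
  refine ⟨hc, C, c, hC, hc0, fun x => ?_⟩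
  have h1 : Tendsto (fun i => |f i (Pool.Agent.N839.T3.em B hG (h i) x)|) l (𝓝 |F x|) := by
    have h2 := (H.lim x).comp (tendsto_id.prodMk (tendsto_const_nhds (x := x) (f := l)))
    exact h2.abs
  have h3 : Tendsto (fun i => C * Real.exp (-(c * (h i *
      nN (Pool.Agent.N839.T3.em B hG (h i) x) ^ 2)))) l (𝓝 (C * Real.exp (-(c * nE x ^ 2)))) := by
    have h4 := Pool.Agent.N839.T3.em_size (B := B) (hG := hG) H.top
      (tendsto_const_nhds (x := x) (f := l))
    exact ((Real.continuous_exp.tendsto _).comp (h4.const_mul c).neg).const_mul C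
  have h5 := le_of_tendsto_of_tendsto h1 h3 (hd.mono fun i hi => hi _)
  rw [nE_sq] at h5
  exact h5

/-- the Gaussian -/
lemma SD_gx (top : Tendsto h l atTop) {b : ℝ} (hb : 0 < b) :
    SD B hG l h (fun i z => Real.exp (-(b * (h i * nN z ^ 2)))) (gx b) where
  top := top
  cont := fun i => by
    have := nN_cont (G := G)
    fun_prop
  lim := fun x => by
    have h4 := Pool.Agent.N839.T3.em_size (B := B) (hG := hG) (H := fun p : ι × (Fin n → ℝ) => h p.1)
      (X := fun p => p.2) (L := l ×ˢ 𝓝 x) (x0 := x) (top.comp tendsto_fst) tendsto_snd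
    have h5 := (Real.continuous_exp.tendsto _).comp (h4.const_mul b).neg
    rw [nE_sq] at h5
    exact h5
  dom := ⟨1, b, zero_le_one, hb, Eventually.of_forall fun i z => by
    rw [abs_of_pos (Real.exp_pos _), one_mul]⟩

variable [MeasurableSpace G] [BorelSpace G] {μ : Measure G} [IsProbabilityMeasure μ]
  [μ.IsHaarMeasure] [CompactSpace G] [SecondCountableTopology G] [μ.IsMulRightInvariant]
  [μ.IsInvInvariant]

lemma SD_lft [l.IsCountablyGenerated] {a : ℕ}
    (Hf : SD B hG l h (fun i x => f i x / nz μ (h i) ^ a) (fun x => F x / (∫ y, gs (n := n) y) ^ a))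
    (Hg : SD B hG l h (fun i x => g i x / nz μ (h i) ^ a) (fun x => Γ x / (∫ y, gs (n := n) y) ^ a)) :
    SD B hG l h (fun i x => lft μ (f i) (g i) x / nz μ (h i) ^ (4 * (4 * a + 3)))
      (fun x => lftR F Γ x / (∫ y, gs (n := n) y) ^ (4 * (4 * a + 3))) := by
  have h2 := Pool.Agent.N565.MK.SD.conv' (μ := μ) Hf Hf
  have h4 := Pool.Agent.N565.MK.SD.conv' (μ := μ) h2 h2
  have h3 := Pool.Agent.N565.MK.SD.conv' (μ := μ) Hf h2
  have hK := Pool.Agent.N565.MK.SD.conv' (μ := μ) h3 Hg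
  have e4 : a + a + 1 + (a + a + 1) + 1 = 4 * a + 3 := by ring
  have e3 : a + (a + a + 1) + 1 + a + 1 = 4 * a + 3 := by ring
  rw [e4] at h4
  rw [e3] at hK
  have h5 := (Pool.Agent.N565.MK.SD.pow_succ h4 2).mul hK
  refine h5.congr (fun i x => ?_) fun x => ?_
  · have e : nz μ (h i) ^ (4 * (4 * a + 3)) =
        (nz μ (h i) ^ (4 * a + 3)) ^ (2 + 1) * nz μ (h i) ^ (4 * a + 3) := by
      rw [← pow_mul, ← pow_add]
      congr 1
      ring
    rw [e, div_pow, div_mul_div_comm]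
    rfl
  · have e : (∫ y, gs (n := n) y) ^ (4 * (4 * a + 3)) =
        ((∫ y, gs (n := n) y) ^ (4 * a + 3)) ^ (2 + 1) * (∫ y, gs (n := n) y) ^ (4 * a + 3) := by
      rw [← pow_mul, ← pow_add]
      congr 1
      ring
    rw [e, div_pow, div_mul_div_comm]
    rfl

lemma SD_TTn [l.IsCountablyGenerated] (hS : SD B hG l h f gs) (j : ℕ) :
    SD B hG l h (fun i x => TTn μ (f i) j x / nz μ (h i) ^ Nc j)
      (fun x => ZR j (fun _ x => gs x) x / (∫ y, gs (n := n) y) ^ Nc j) := by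
  refine (Pool.Agent.N565.MK.SD.ZZ (μ := μ) j (w := fun _ => f) (γ := fun _ => gs)
    fun _ => hS).congr (fun i x => ?_) fun x => rfl
  congr 1
  rw [← WF_one (μ := μ) (Z := f i) j (fun _ _ => 1) (fun _ _ => rfl)]
  unfold WF
  congr 1
  funext q x
  rw [mul_one]

lemma SD_WL [l.IsCountablyGenerated] (hS : SD B hG l h f gs) (j : ℕ)
    (Hg : SD B hG l h (fun i x => g i x / nz μ (h i) ^ Nc j)
      (fun x => Γ x / (∫ y, gs (n := n) y) ^ Nc j)) : ∀ D : ℕ,
    SD B hG l h (fun i x => WL μ (f i) j (g i) D x / nz μ (h i) ^ Nc (j + D))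
      (fun x => WLR j Γ D x / (∫ y, gs (n := n) y) ^ Nc (j + D))
  | 0 => Hg
  | D + 1 => SD_lft (SD_TTn hS (j + D)) (SD_WL hS j Hg D)

end scaling

/-! ### Blocks in the group theory -/

section block

variable {G : Type*} [Group G] [TopologicalSpace G] [IsTopologicalGroup G] [CompactSpace G]
  [MeasurableSpace G] [BorelSpace G] [SecondCountableTopology G]
  {μ : Measure G} [IsProbabilityMeasure μ] [μ.IsHaarMeasure] [μ.IsMulRightInvariant]
  [μ.IsInvInvariant] {Z g : G → ℝ}

lemma cont_WL (hZ : Adm Z) (j : ℕ) (hg : Continuous g) : ∀ D, Continuous (WL μ Z j g D)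
  | 0 => hg
  | D + 1 => cont_lft (hZ.TTn (j + D)).cont (cont_WL hZ j hg D)

lemma WL_TTn (hZ : Adm Z) (j : ℕ) : ∀ D, WL μ Z j (TTn μ Z j) D = TTn μ Z (j + D)
  | 0 => rfl
  | D + 1 => by
    change lft μ (TTn μ Z (j + D)) (WL μ Z j (TTn μ Z j) D) = TTn μ Z (j + (D + 1))
    rw [WL_TTn hZ j D, lft_self (hZ.TTn (j + D)).cont]
    rfl

lemma int_WL (hZ : Adm Z) (j : ℕ) (hg : Continuous g) (D : ℕ) : ∀ (d : ℕ) (E : G → ℝ),
    Continuous E → ∫ x, WL μ Z j g (D + d) x * E x ∂μ =
      ∫ x, WL μ Z j g D x * envE μ Z (j + D) d E x ∂μ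
  | 0, E, _ => rfl
  | d + 1, E, hE => by
    have hA := hZ.TTn (μ := μ) (j + (D + d))
    change ∫ x, lft μ (TTn μ Z (j + (D + d))) (WL μ Z j g (D + d)) x * E x ∂μ = _
    rw [int_lft hA (cont_WL hZ j hg _) hE, int_WL hZ j hg D d _
      (Pool.Agent.N838.T3.cont_envS hA.cont hE)]
    change ∫ x, WL μ Z j g D x * envE μ Z (j + D) d
      (Pool.Agent.N838.T3.envS μ (TTn μ Z (j + (D + d))) E) x ∂μ =
      ∫ x, WL μ Z j g D x * envE μ Z (j + D) d
        (Pool.Agent.N838.T3.envS μ (TTn μ Z (j + D + d)) E) x ∂μ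
    rw [add_assoc]

lemma int_WL_one (hZ : Adm Z) (j : ℕ) (hg : Continuous g) (D d : ℕ) :
    ∫ x, WL μ Z j g (D + d) x ∂μ = ∫ x, WL μ Z j g D x * env μ Z (j + D) d x ∂μ := by
  have h1 := int_WL (μ := μ) hZ j hg D d (fun _ => 1) continuous_const
  simp only [mul_one] at h1
  rw [h1, env_eq]

end block

/-! ### The comparison -/

section compare

variable {N n : ℕ} {G : Subgroup (UN N)}

variable [MeasurableSpace G] [BorelSpace G] {μ : Measure G} [IsProbabilityMeasure μ]
  [μ.IsHaarMeasure] [CompactSpace G] [SecondCountableTopology G] [μ.IsMulRightInvariant]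
  [μ.IsInvInvariant]

/-- the comparison of a quotient with a constant -/
lemma ratio_est {W f E' : G → ℝ} (hW : Continuous W) (hf : Continuous f) (f0 : ∀ x, 0 ≤ f x)
    (hE : Continuous E') (E0 : ∀ x, 0 < E' x) (hE1 : ∀ x, E' x ≤ E' 1) {c₁ b r H : ℝ}
    (hc₁ : 0 < c₁) (hb : 0 ≤ b) (hH : 0 ≤ H)
    (low : ∀ x : G, nN x ≤ r → c₁ * E' 1 * Real.exp (-(b * (H * nN x ^ 2))) ≤ E' x) (hr : 0 ≤ r)
    (L : ℝ) {T : ℝ} (hT : T = (∫ x, f x * Real.exp (-(b * (H * nN x ^ 2))) ∂μ) -
      Real.exp (-(b * (H * r ^ 2))) * ∫ x, f x ∂μ) (hT0 : 0 < T) :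
    |(∫ x, W x * E' x ∂μ) / (∫ x, f x * E' x ∂μ) - L| ≤ (∫ x, |W x - L * f x| ∂μ) / (c₁ * T) := by
  have hE1p := E0 1
  have ce : Continuous fun x : G => Real.exp (-(b * (H * nN x ^ 2))) := by
    have := nN_cont (G := G)
    fun_prop
  have i1 : Integrable (fun x => W x * E' x) μ := integrable_of_cont (hW.mul hE)
  have i2 : Integrable (fun x => f x * E' x) μ := integrable_of_cont (hf.mul hE)
  have i3 : Integrable (fun x => |W x - L * f x|) μ :=
    integrable_of_cont ((hW.sub (continuous_const.mul hf)).abs)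
  have i4 : Integrable (fun x => f x * Real.exp (-(b * (H * nN x ^ 2)))) μ :=
    integrable_of_cont (hf.mul ce)
  have i5 : Integrable f μ := integrable_of_cont hf
  -- the denominator
  have low' : ∀ x : G, c₁ * E' 1 * (Real.exp (-(b * (H * nN x ^ 2))) -
      Real.exp (-(b * (H * r ^ 2)))) ≤ E' x := by
    intro x
    rcases le_or_gt (nN x) r with hx | hx
    · refine le_trans (mul_le_mul_of_nonneg_left ?_ (by positivity)) (low x hx)
      have := Real.exp_pos (-(b * (H * r ^ 2)))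
      linarith
    · refine le_trans (mul_nonpos_of_nonneg_of_nonpos (by positivity) ?_) (E0 x).le
      rw [sub_nonpos]
      refine Real.exp_le_exp.2 (neg_le_neg (mul_le_mul_of_nonneg_left ?_ hb))
      exact mul_le_mul_of_nonneg_left (pow_le_pow_left₀ hr hx.le 2) hH
  have hden : c₁ * E' 1 * T ≤ ∫ x, f x * E' x ∂μ := by
    have e1 : c₁ * E' 1 * T = ∫ x, f x * (c₁ * E' 1 * (Real.exp (-(b * (H * nN x ^ 2))) -
        Real.exp (-(b * (H * r ^ 2))))) ∂μ := by
      have e2 : ∀ x, f x * (c₁ * E' 1 * (Real.exp (-(b * (H * nN x ^ 2))) -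
          Real.exp (-(b * (H * r ^ 2))))) = c₁ * E' 1 * (f x * Real.exp (-(b * (H * nN x ^ 2)))) -
          c₁ * E' 1 * Real.exp (-(b * (H * r ^ 2))) * f x := fun x => by ring
      simp only [e2]
      rw [integral_sub (i4.const_mul _) (i5.const_mul _), integral_const_mul, integral_const_mul,
        hT]
      ring
    rw [e1]
    refine integral_mono ?_ i2 fun x => mul_le_mul_of_nonneg_left (low' x) (f0 x)
    exact integrable_of_cont (hf.mul (continuous_const.mul (ce.sub continuous_const)))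
  have hdp : 0 < c₁ * E' 1 * T := by positivity
  have hd0 : 0 < ∫ x, f x * E' x ∂μ := hdp.trans_le hden
  -- the numerator
  have hnum : |(∫ x, W x * E' x ∂μ) - L * ∫ x, f x * E' x ∂μ| ≤
      E' 1 * ∫ x, |W x - L * f x| ∂μ := by
    rw [← integral_const_mul, ← integral_sub i1 (i2.const_mul L), ← integral_const_mul]
    refine abs_integral_le_integral_abs.trans (integral_mono (i1.sub (i2.const_mul L)).abs
      (i3.const_mul _) fun x => ?_)
    beta_reduce
    have e3 : W x * E' x - L * (f x * E' x) = (W x - L * f x) * E' x := by ring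
    rw [e3, abs_mul, abs_of_pos (E0 x), mul_comm]
    exact mul_le_mul_of_nonneg_right (hE1 x) (abs_nonneg _)
  have hI3 : 0 ≤ ∫ x, |W x - L * f x| ∂μ := integral_nonneg fun x => abs_nonneg _
  have e4 : (∫ x, W x * E' x ∂μ) / (∫ x, f x * E' x ∂μ) - L =
      ((∫ x, W x * E' x ∂μ) - L * ∫ x, f x * E' x ∂μ) / ∫ x, f x * E' x ∂μ := by
    field_simp
  rw [e4, abs_div, abs_of_pos hd0, div_le_div_iff₀ hd0 (by positivity)]
  calc |(∫ x, W x * E' x ∂μ) - L * ∫ x, f x * E' x ∂μ| * (c₁ * T)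
      ≤ (E' 1 * ∫ x, |W x - L * f x| ∂μ) * (c₁ * T) :=
        mul_le_mul_of_nonneg_right hnum (by positivity)
    _ = (∫ x, |W x - L * f x| ∂μ) * (c₁ * E' 1 * T) := by ring
    _ ≤ (∫ x, |W x - L * f x| ∂μ) * ∫ x, f x * E' x ∂μ := mul_le_mul_of_nonneg_left hden hI3

variable {B : Frame G n} {hG : IsClosed (G : Set (UN N))} {h : ℕ → ℝ} {f g : ℕ → G → ℝ}
  {Γ : (Fin n → ℝ) → ℝ}

/-- the quotients of the weights of a block and of the partition functions -/
def Q (μ : Measure G) (f : G → ℝ) (j : ℕ) (g : G → ℝ) (d : ℕ) : ℝ :=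
  (∫ x, WL μ f j g d x ∂μ) / ∫ x, TTn μ f (j + d) x ∂μ

/-- the comparison of the quotients with a constant, uniformly in the volume -/
theorem Q_near (hf : ∀ m, Adm (f m)) (hS : SD B hG atTop h f gs) {c₁ b r : ℝ} (hc₁ : 0 < c₁)
    (hb : 0 < b) (hr : 0 < r)
    (henv : ∀ s, ∀ᶠ m in atTop, ∀ d, (∀ x, env μ (f m) s d x ≤ env μ (f m) s d 1) ∧
      ∀ x : G, nN x ≤ r → c₁ * env μ (f m) s d 1 * Real.exp (-(b * (h m * nN x ^ 2))) ≤
        env μ (f m) s d x)
    (j : ℕ) (hg : ∀ m, Continuous (g m)) (hΓ : Continuous Γ)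
    (Hg : SD B hG atTop h (fun i x => g i x / nz μ (h i) ^ Nc j)
      (fun x => Γ x / (∫ y, gs (n := n) y) ^ Nc j)) :
    ∃ L : ℝ, ∀ ε : ℝ, 0 < ε → ∃ D m0 : ℕ, ∀ m : ℕ, m0 ≤ m → ∀ d : ℕ,
      |Q μ (f m) j (g m) (D + d) - L| ≤ ε := by
  have hgs : 0 < ∫ y, gs (n := n) y := Pool.Agent.N681.T3.gs_pos'
  -- the function `Γ`
  have hGB : GB Γ := by
    have h1 := SD_gb Hg (hΓ.div_const _)
    have h2 := h1.smul ((∫ y, gs (n := n) y) ^ Nc j)
    have e : (fun x => (∫ y, gs (n := n) y) ^ Nc j * (Γ x / (∫ y, gs (n := n) y) ^ Nc j)) = Γ := by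
      funext x
      field_simp
    rwa [e] at h2
  obtain ⟨A, hA, hZj⟩ := ZR_gx (n := n) j
  obtain ⟨L0, hL0⟩ : ∃ L0, L0 = (∫ x, Γ x * gx (1 / 8) x) / (∫ x, gx (n := n) (5 / 8) x) :=
    ⟨_, rfl⟩
  have hI1 : 0 < ∫ x, gx (n := n) (3 / 8) x := gx_int_pos (by norm_num)
  have hI2 : 0 < ∫ x, gx (n := n) (1 / 2 + b) x := gx_int_pos (by positivity)
  refine ⟨L0 / A, fun ε hε => ?_⟩
  obtain ⟨ε', hε'⟩ : ∃ ε', ε' = ε / 2 * (c₁ * A * ∫ x, gx (n := n) (1 / 2 + b) x) /
      ∫ x, gx (n := n) (3 / 8) x := ⟨_, rfl⟩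
  have hε'0 : 0 < ε' := by rw [hε']; positivity
  obtain ⟨D, hD⟩ := contract hGB ε' hε'0
  refine ⟨D, ?_⟩
  obtain ⟨k, hk, hWLR⟩ := WLR_eq (n := n) j D
  obtain ⟨A', hA', hZD⟩ := ZR_gx (n := n) (j + D)
  have hsW := SD_WL (μ := μ) hS j Hg D
  have hsT := SD_TTn (μ := μ) hS (j + D)
  -- the partition functions
  have hAA : k * (lam n ^ D * A) = A' := by
    have h1 := SD_WL (μ := μ) hS j (SD_TTn (μ := μ) hS j) D
    have h2 : SD B hG atTop h (fun i x => TTn μ (f i) (j + D) x / nz μ (h i) ^ Nc (j + D))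
        (fun x => WLR j (ZR (n := n) j (fun _ x => gs x)) D x /
          (∫ y, gs (n := n) y) ^ Nc (j + D)) :=
      h1.congr (fun i x => by rw [← WL_TTn (μ := μ) (hf i) j D]) fun x => rfl
    have h3 := SD_unique h2 hsT 0
    rw [hWLR, hZj, hZD, iter_smul, iter_eig] at h3
    have e0 : gx (n := n) (1 / 2) 0 = 1 := by
      unfold gx sq
      simp
    have h4 : (∫ y, gs (n := n) y) ^ Nc (j + D) ≠ 0 := pow_ne_zero _ hgs.ne'
    rw [div_left_inj' h4] at h3
    beta_reduce at h3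
    rw [e0] at h3
    linarith
  obtain ⟨a, ha⟩ : ∃ a, a = Nc (j + D) := ⟨_, rfl⟩
  rw [← ha] at hsW hsT
  -- the limits of the integrals
  have l1 := (SD_abs (SD_sub hsW (hsT.smul (tendsto_const_nhds (x := L0 / A))))).int_lim (μ := μ)
  have l2 := (hsT.mul (SD_gx hS.top hb)).int_lim (μ := μ)
  have l3 := hsT.int_lim (μ := μ)
  have l4 : Tendsto (fun m => Real.exp (-(b * (h m * r ^ 2)))) atTop (𝓝 0) := by
    refine Real.tendsto_exp_atBot.comp (tendsto_neg_atTop_atBot.comp ?_)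
    exact (hS.top.atTop_mul_const (by positivity)).const_mul_atTop hb
  have l5 := l4.mul l3
  rw [zero_mul] at l5
  obtain ⟨x1, hx1⟩ : ∃ x1, x1 = (∫ x, |WLR j Γ D x / (∫ y, gs (n := n) y) ^ a -
      L0 / A * (ZR (j + D) (fun _ x => gs x) x / (∫ y, gs (n := n) y) ^ a)|) /
      ∫ x, gs (n := n) x := ⟨_, rfl⟩
  obtain ⟨t1, ht1⟩ : ∃ t1, t1 = (∫ x : Fin n → ℝ, ZR (j + D) (fun _ x => gs x) x /
      (∫ y, gs (n := n) y) ^ a * gx b x) / ∫ x, gs (n := n) x := ⟨_, rfl⟩
  rw [← hx1] at l1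
  rw [← ht1] at l2
  have hga : 0 < (∫ y, gs (n := n) y) ^ a := pow_pos hgs a
  have et : t1 = A' * (∫ x, gx (n := n) (1 / 2 + b) x) / (∫ y, gs (n := n) y) ^ a /
      ∫ x, gs (n := n) x := by
    rw [ht1, hZD]
    congr 1
    have e1 : ∀ x : Fin n → ℝ, A' * gx (1 / 2) x / (∫ y, gs (n := n) y) ^ a * gx b x =
        A' / (∫ y, gs (n := n) y) ^ a * gx (1 / 2 + b) x := fun x => by
      rw [← gx_mul]
      ring
    simp only [e1]
    rw [integral_const_mul]
    ring
  have ht0 : 0 < t1 := by rw [et]; positivity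
  have ex : x1 ≤ ε / 2 * (c₁ * t1) := by
    have hp : ∀ x, |WLR j Γ D x / (∫ y, gs (n := n) y) ^ a -
        L0 / A * (ZR (j + D) (fun _ x => gs x) x / (∫ y, gs (n := n) y) ^ a)| ≤
        k * ε' * lam n ^ D / (∫ y, gs (n := n) y) ^ a * gx (3 / 8) x := by
      intro x
      have h1 := hD D le_rfl x
      rw [← hL0] at h1
      rw [hWLR, hZD, ← hAA]
      beta_reduce
      have e1 : k * La^[D] Γ x / (∫ y, gs (n := n) y) ^ a -
          L0 / A * (k * (lam n ^ D * A) * gx (1 / 2) x / (∫ y, gs (n := n) y) ^ a) =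
          k / (∫ y, gs (n := n) y) ^ a * (La^[D] Γ x - L0 * (lam n ^ D * gx (1 / 2) x)) := by
        field_simp
      rw [e1, abs_mul, abs_of_pos (by positivity : 0 < k / (∫ y, gs (n := n) y) ^ a)]
      calc k / (∫ y, gs (n := n) y) ^ a * |La^[D] Γ x - L0 * (lam n ^ D * gx (1 / 2) x)|
          ≤ k / (∫ y, gs (n := n) y) ^ a * (ε' * lam n ^ D * gx (3 / 8) x) :=
            mul_le_mul_of_nonneg_left h1 (by positivity)
        _ = _ := by ring
    have h2 : ∫ x, |WLR j Γ D x / (∫ y, gs (n := n) y) ^ a -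
        L0 / A * (ZR (j + D) (fun _ x => gs x) x / (∫ y, gs (n := n) y) ^ a)| ≤
        k * ε' * lam n ^ D / (∫ y, gs (n := n) y) ^ a * ∫ x, gx (n := n) (3 / 8) x := by
      rw [← integral_const_mul]
      refine integral_mono_of_nonneg (Eventually.of_forall fun x => abs_nonneg _)
        ((gx_int (by norm_num)).const_mul _) (Eventually.of_forall hp)
    rw [hx1, et, ← hAA]
    have h3 : ε' * ∫ x, gx (n := n) (3 / 8) x =
        ε / 2 * (c₁ * A * ∫ x, gx (n := n) (1 / 2 + b) x) := by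
      rw [hε', div_mul_cancel₀ _ hI1.ne']
    calc _ ≤ k * ε' * lam n ^ D / (∫ y, gs (n := n) y) ^ a * (∫ x, gx (n := n) (3 / 8) x) /
            ∫ x, gs (n := n) x := div_le_div_of_nonneg_right h2 hgs.le
      _ = k * lam n ^ D / (∫ y, gs (n := n) y) ^ a * (ε' * ∫ x, gx (n := n) (3 / 8) x) /
            ∫ x, gs (n := n) x := by ring
      _ = _ := by
        rw [h3]
        ring
  -- the estimate for large `m`
  have l6 := l2.sub l5
  rw [sub_zero] at l6
  have ev1 : ∀ᶠ m in atTop, 0 < (∫ x, TTn μ (f m) (j + D) x / nz μ (h m) ^ a *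
      Real.exp (-(b * (h m * nN x ^ 2))) ∂μ) / nz μ (h m) -
      Real.exp (-(b * (h m * r ^ 2))) *
        ((∫ x, TTn μ (f m) (j + D) x / nz μ (h m) ^ a ∂μ) / nz μ (h m)) :=
    l6.eventually (lt_mem_nhds ht0)
  have l7 := l1.div (l6.const_mul c₁) (mul_pos hc₁ ht0).ne'
  have hlt : x1 / (c₁ * t1) < ε := by
    rw [div_lt_iff₀ (by positivity)]
    have : 0 < ε / 2 * (c₁ * t1) := by positivity
    linarith
  have ev2 := l7.eventually (gt_mem_nhds hlt)
  obtain ⟨m0, hm0⟩ := eventually_atTop.1 ((ev1.and ev2).and ((henv (j + D)).and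
    (hS.top.eventually_gt_atTop 0)))
  refine ⟨m0, fun m hm d => ?_⟩
  obtain ⟨⟨q1, q2⟩, q3, q4⟩ := hm0 m hm
  obtain ⟨q5, q6⟩ := q3 d
  have hz : 0 < nz μ (h m) := Pool.Agent.N681.T3.nz_pos (h m)
  have hza : 0 < nz μ (h m) ^ a := pow_pos hz a
  have hAT := (hf m).TTn (μ := μ) (j + D)
  -- the constants
  have e1 : ∫ x, TTn μ (f m) (j + D) x / nz μ (h m) ^ a *
      Real.exp (-(b * (h m * nN x ^ 2))) ∂μ = (∫ x, TTn μ (f m) (j + D) x *
      Real.exp (-(b * (h m * nN x ^ 2))) ∂μ) / nz μ (h m) ^ a := by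
    rw [← integral_div]
    refine integral_congr_ae (Eventually.of_forall fun x => ?_)
    beta_reduce
    ring
  have e2 : ∫ x, TTn μ (f m) (j + D) x / nz μ (h m) ^ a ∂μ =
      (∫ x, TTn μ (f m) (j + D) x ∂μ) / nz μ (h m) ^ a := integral_div _ _
  have e3 : ∫ x, |WL μ (f m) j (g m) D x / nz μ (h m) ^ a -
      L0 / A * (TTn μ (f m) (j + D) x / nz μ (h m) ^ a)| ∂μ =
      (∫ x, |WL μ (f m) j (g m) D x - L0 / A * TTn μ (f m) (j + D) x| ∂μ) /
        nz μ (h m) ^ a := by
    rw [← integral_div]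
    refine integral_congr_ae (Eventually.of_forall fun x => ?_)
    beta_reduce
    rw [← mul_div_assoc, ← sub_div, abs_div, abs_of_pos hza]
  obtain ⟨T, hT⟩ : ∃ T, T = (∫ x, TTn μ (f m) (j + D) x *
      Real.exp (-(b * (h m * nN x ^ 2))) ∂μ) -
      Real.exp (-(b * (h m * r ^ 2))) * ∫ x, TTn μ (f m) (j + D) x ∂μ := ⟨_, rfl⟩
  have e4 : (∫ x, TTn μ (f m) (j + D) x *
      Real.exp (-(b * (h m * nN x ^ 2))) ∂μ) / nz μ (h m) ^ a / nz μ (h m) -
      Real.exp (-(b * (h m * r ^ 2))) * ((∫ x, TTn μ (f m) (j + D) x ∂μ) /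
        nz μ (h m) ^ a / nz μ (h m)) = T / (nz μ (h m) ^ a * nz μ (h m)) := by
    rw [hT]
    field_simp
  rw [e1, e2, e4] at q1
  simp only [Pi.div_apply] at q2
  rw [e1, e2, e4, e3] at q2
  have hN : 0 < nz μ (h m) ^ a * nz μ (h m) := by positivity
  have hT0 : 0 < T := by
    have := mul_pos q1 hN
    rwa [div_mul_cancel₀ _ hN.ne'] at this
  have h8 := ratio_est (μ := μ) (W := WL μ (f m) j (g m) D) (f := TTn μ (f m) (j + D))
    (E' := env μ (f m) (j + D) d) (cont_WL (hf m) j (hg m) D) hAT.cont (fun x => (hAT.pos x).le)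
    (Pool.Agent.N838.T3.cont_env (hf m) _ _) (Pool.Agent.N838.T3.env_pos (hf m) _ _) q5 hc₁ hb.le
    q4.le q6 hr.le (L0 / A) hT hT0
  have e5 : Q μ (f m) j (g m) (D + d) = (∫ x, WL μ (f m) j (g m) D x *
      env μ (f m) (j + D) d x ∂μ) / ∫ x, TTn μ (f m) (j + D) x * env μ (f m) (j + D) d x ∂μ := by
    unfold Q
    rw [int_WL_one (hf m) j (hg m) D d, ← WL_TTn (hf m) j (D + d),
      int_WL_one (hf m) j ((hf m).TTn (μ := μ) j).cont D d, WL_TTn (hf m) j D]
  rw [e5]
  refine h8.trans (le_trans (le_of_eq ?_) q2.le)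
  generalize (∫ x, |WL μ (f m) j (g m) D x - L0 / A * TTn μ (f m) (j + D) x| ∂μ) = I
  field_simp

end compare

/-! ### Scaling of the weight -/

section scale

variable {G : Type*} [Group G] [TopologicalSpace G] [IsTopologicalGroup G] [CompactSpace G]
  [MeasurableSpace G] [BorelSpace G] [SecondCountableTopology G]
  {μ : Measure G} [IsProbabilityMeasure μ] [μ.IsHaarMeasure] [μ.IsMulRightInvariant]
  [μ.IsInvInvariant]

lemma conv_mulc (c C : ℝ) (f g : G → ℝ) :
    Pool.Agent.N991.MK.conv μ (fun x => c * f x) (fun x => C * g x) =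
      fun x => c * C * Pool.Agent.N991.MK.conv μ f g x := by
  funext x
  unfold Pool.Agent.N991.MK.conv
  rw [← integral_const_mul]
  refine integral_congr_ae (Eventually.of_forall fun y => ?_)
  beta_reduce
  ring

lemma H4_mulc (c : ℝ) (f : G → ℝ) : H4 μ (fun x => c * f x) = fun x => c ^ 4 * H4 μ f x := by
  unfold Pool.Agent.N989.MK.H4
  rw [conv_mulc, conv_mulc]
  funext x
  ring

lemma TTn_mulc (c : ℝ) (f : G → ℝ) : ∀ j, TTn μ (fun x => c * f x) j =
    fun x => c ^ 16 ^ j * TTn μ f j x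
  | 0 => by
    funext x
    change c * f x = c ^ 16 ^ 0 * f x
    simp
  | j + 1 => by
    change TT μ (TTn μ (fun x => c * f x) j) = fun x => c ^ 16 ^ (j + 1) * TT μ (TTn μ f j) x
    rw [TTn_mulc c f j]
    unfold Pool.Agent.N989.MK.TT
    rw [H4_mulc]
    funext x
    rw [mul_pow, ← pow_mul, ← pow_mul]
    congr 2

lemma env_mulc {c : ℝ} (hc : 0 < c) (f : G → ℝ) : ∀ d j : ℕ, ∃ C : ℝ, 0 < C ∧
    env μ (fun x => c * f x) j d = fun x => C * env μ f j d x
  | 0, _ => ⟨1, one_pos, by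
    funext x
    change (1 : ℝ) = 1 * 1
    norm_num⟩
  | d + 1, j => by
    obtain ⟨C, hC, h⟩ := env_mulc hc f d (j + 1)
    refine ⟨(c ^ 16 ^ j) ^ 15 * C, by positivity, ?_⟩
    change Pool.Agent.N838.T3.envS μ (TTn μ (fun x => c * f x) j)
      (env μ (fun x => c * f x) (j + 1) d) =
      fun x => (c ^ 16 ^ j) ^ 15 * C *
        Pool.Agent.N838.T3.envS μ (TTn μ f j) (env μ f (j + 1) d) x
    rw [h, TTn_mulc]
    unfold Pool.Agent.N838.T3.envS
    rw [conv_mulc, conv_mulc, H4_mulc]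
    have e : (fun x => ((c ^ 16 ^ j) ^ 4 * H4 μ (TTn μ f j) x) ^ 3 *
        (C * env μ f (j + 1) d x)) =
        fun x => ((c ^ 16 ^ j) ^ 12 * C) * (H4 μ (TTn μ f j) x ^ 3 * env μ f (j + 1) d x) := by
      funext x
      ring
    rw [e, conv_mulc]
    funext x
    ring

end scale

/-! ### The result -/

section result

open Pool.Agent.N681.T3 (UL)

variable {N n : ℕ} {G : Subgroup (UN N)}

variable [MeasurableSpace G] [BorelSpace G] {μ : Measure G} [IsProbabilityMeasure μ]
  [μ.IsHaarMeasure] [CompactSpace G] [SecondCountableTopology G] [μ.IsMulRightInvariant]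
  [μ.IsInvInvariant]

variable {B : Frame G n} {hG : IsClosed (G : Set (UN N))} {h : ℕ → ℝ}

/-- a plaquette -/
def pq0 : ∀ n : ℕ, Pq n
  | 0 => ()
  | n + 1 => (0, 0, pq0 n)

/-- scaling limits are continuous -/
lemma SD_cont {ι : Type*} {l : Filter ι} [l.NeBot] {h : ι → ℝ} {f : ι → G → ℝ}
    {F : (Fin n → ℝ) → ℝ} (H : SD B hG l h f F) : Continuous F := by
  rw [continuous_iff_continuousAt]
  intro x
  rw [ContinuousAt, Metric.tendsto_nhds]
  intro ε hε
  have h1 := (H.lim x).eventually (Metric.closedBall_mem_nhds (F x) (half_pos hε))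
  obtain ⟨p, hp, q, hq, hpq⟩ := eventually_prod_iff.1 h1
  filter_upwards [hq] with y hy
  have h2 : Tendsto (fun i => f i (Pool.Agent.N839.T3.em B hG (h i) y)) l (𝓝 (F y)) :=
    (H.lim y).comp (tendsto_id.prodMk (tendsto_const_nhds (x := y) (f := l)))
  have h3 : F y ∈ Metric.closedBall (F x) (ε / 2) :=
    Metric.isClosed_closedBall.mem_of_tendsto h2 (hp.mono fun i hi => hpq hi hy)
  exact lt_of_le_of_lt (Metric.mem_closedBall.1 h3) (half_lt_self hε)

/-- **the expectations of products of observables of a block converge to those of the free theory,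
uniformly in the volume** -/
theorem block_UL {f : ℕ → G → ℝ} (hf : ∀ m, Adm (f m))
    (hS : SD B hG atTop h (fun m y => f m y / f m 1) gs) {c₁ b r : ℝ} (hc₁ : 0 < c₁) (hb : 0 < b)
    (hr : 0 < r)
    (henv : ∀ s, ∀ᶠ m in atTop, ∀ d, (∀ x, env μ (f m) s d x ≤ env μ (f m) s d 1) ∧
      ∀ x : G, nN x ≤ r → c₁ * env μ (f m) s d 1 * Real.exp (-(b * (h m * nN x ^ 2))) ≤
        env μ (f m) s d x)
    {j r' : ℕ} (α : Fin r' → Pq j) {O : Fin r' → ℕ → G → ℝ} {o : Fin r' → (Fin n → ℝ) → ℝ}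
    (hO : ∀ a m, Continuous (O a m)) (hc : ∀ a m, Cls (O a m))
    (hSO : ∀ q, SD B hG atTop h (fun m x => f m x / f m 1 * inss α (fun a => O a m) q x)
      (fun x => gs x * insR α o q x)) :
    UL (fun m (i : Σ d, Pq d) => Ex μ (f m) (j + i.1)
        (fun U => ∏ a, O a m (hol U (jn i.2 (α a)))))
      (fun i => ER (n := n) (fun a => jn i.2 (α a)) o) := by
  classical
  -- the normalised weights
  obtain ⟨f', hf'⟩ : ∃ f' : ℕ → G → ℝ, f' = fun m x => (f m 1)⁻¹ * f m x := ⟨_, rfl⟩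
  have h1p : ∀ m, 0 < (f m 1)⁻¹ := fun m => inv_pos.2 ((hf m).pos 1)
  have hfA : ∀ m, Adm (f' m) := by
    intro m
    rw [hf']
    exact ⟨continuous_const.mul (hf m).cont, fun x => mul_pos (h1p m) ((hf m).pos x),
      fun g x => by beta_reduce; rw [(hf m).cls], fun x => by beta_reduce; rw [(hf m).sy]⟩
  have hfe : ∀ m x, f' m x = f m x / f m 1 := fun m x => by
    rw [hf']
    beta_reduce
    rw [div_eq_inv_mul]
  have hS' : SD B hG atTop h f' gs := hS.congr (fun m x => hfe m x) fun x => rfl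
  have henv' : ∀ s, ∀ᶠ m in atTop, ∀ d, (∀ x, env μ (f' m) s d x ≤ env μ (f' m) s d 1) ∧
      ∀ x : G, nN x ≤ r → c₁ * env μ (f' m) s d 1 * Real.exp (-(b * (h m * nN x ^ 2))) ≤
        env μ (f' m) s d x := by
    intro s
    filter_upwards [henv s] with m hm d
    obtain ⟨h2, h3⟩ := hm d
    obtain ⟨C, hC, h4⟩ := env_mulc (μ := μ) (h1p m) (f m) d s
    have h5 : env μ (f' m) s d = fun x => C * env μ (f m) s d x := by
      rw [hf']
      exact h4
    rw [h5]
    refine ⟨fun x => mul_le_mul_of_nonneg_left (h2 x) hC.le, fun x hx => ?_⟩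
    have h6 := mul_le_mul_of_nonneg_left (h3 x hx) hC.le
    calc c₁ * (C * env μ (f m) s d 1) * Real.exp (-(b * (h m * nN x ^ 2)))
        = C * (c₁ * env μ (f m) s d 1 * Real.exp (-(b * (h m * nN x ^ 2)))) := by ring
      _ ≤ _ := h6
  -- the weights of the block
  obtain ⟨g, hg⟩ : ∃ g : ℕ → G → ℝ, g = fun m => WF μ (f' m) j (inss α fun a => O a m) := ⟨_, rfl⟩
  have hgc : ∀ m, Continuous (g m) := by
    intro m
    rw [hg]
    exact Pool.Agent.N838.T3.cont_WF (hfA m) (inss_insC α (fun a => hO a m) fun a => hc a m)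
  have Hg : SD B hG atTop h (fun i x => g i x / nz μ (h i) ^ Nc j)
      (fun x => ZR j (fun q x => gs x * insR α o q x) x / (∫ y, gs (n := n) y) ^ Nc j) := by
    refine (Pool.Agent.N565.MK.SD.ZZ (μ := μ) j hSO).congr (fun i x => ?_) fun x => rfl
    rw [hg]
    unfold WF
    simp only [hfe]
  have hΓ : Continuous (ZR (n := n) j (fun q x => gs x * insR α o q x)) := by
    have h1 := SD_cont Hg
    have h2 : (∫ y, gs (n := n) y) ^ Nc j ≠ 0 := pow_ne_zero _ (Pool.Agent.N681.T3.gs_pos').ne'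
    have h3 := h1.mul_const ((∫ y, gs (n := n) y) ^ Nc j)
    simpa only [div_mul_cancel₀ _ h2] using h3
  obtain ⟨L, hL⟩ := Q_near (μ := μ) hfA hS' hc₁ hb hr henv' j hgc hΓ Hg
  -- the expectations
  have hEx : ∀ (m : ℕ) (i : Σ d, Pq d), Ex μ (f m) (j + i.1)
      (fun U => ∏ a, O a m (hol U (jn i.2 (α a)))) = Q μ (f' m) j (g m) i.1 := by
    intro m i
    have h2 : Ex μ (f' m) (j + i.1) (fun U => ∏ a, O a m (hol U (jn i.2 (α a)))) =
        Ex μ (f m) (j + i.1) (fun U => ∏ a, O a m (hol U (jn i.2 (α a)))) := by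
      rw [hf']
      exact Ex_scale (h1p m).ne' _ _ _
    rw [← h2, Ex_block (hfA m) α (fun a => hO a m) (fun a => hc a m) i.1 i.2, hg]
    rfl
  -- the limits
  have hlim : ∀ i : Σ d, Pq d, Tendsto (fun m => Q μ (f' m) j (g m) i.1) atTop
      (𝓝 (ER (n := n) (fun a => jn i.2 (α a)) o)) := by
    intro i
    have h2 := Pool.Agent.N681.T3.Ex_lim (μ := μ) hf hS (fun a => jn i.2 (α a)) (O := O) (o := o)
      hO hc (fun q => by
        obtain ⟨β, p, hq⟩ := jn_surj (k := j) q
        by_cases hβ : β = i.2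
        · refine (hSO p).congr (fun m x => ?_) fun x => ?_
          · congr 1
            unfold inss
            refine Finset.prod_congr rfl fun a _ => ?_
            have e : (q = jn i.2 (α a)) ↔ p = α a := by
              rw [← hq, hβ]
              exact ⟨fun h => (jn_inj h).2, fun h => by rw [h]⟩
            simp only [e]
          · congr 1
            unfold insR
            refine Finset.prod_congr rfl fun a _ => ?_
            have e : (q = jn i.2 (α a)) ↔ p = α a := by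
              rw [← hq, hβ]
              exact ⟨fun h => (jn_inj h).2, fun h => by rw [h]⟩
            simp only [e]
        · have e : ∀ a, ¬ q = jn i.2 (α a) := by
            intro a h
            rw [← hq] at h
            exact hβ (jn_inj h).1
          refine hS.congr (fun m x => ?_) fun x => ?_
          · unfold inss
            simp only [e, if_false, Finset.prod_const_one, mul_one]
          · unfold insR
            simp only [e, if_false, Finset.prod_const_one, mul_one])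
    refine h2.congr fun m => ?_
    exact hEx m i
  obtain ⟨e, he⟩ : ∃ e : ℕ → ℝ, e = fun d =>
      ER (n := n) (fun a => jn (pq0 d) (α a)) o := ⟨_, rfl⟩
  have heq : ∀ i : Σ d, Pq d, ER (n := n) (fun a => jn i.2 (α a)) o = e i.1 := by
    intro i
    rw [he]
    exact tendsto_nhds_unique (hlim i) (hlim ⟨i.1, pq0 i.1⟩)
  have hle : ∀ d, Tendsto (fun m => Q μ (f' m) j (g m) d) atTop (𝓝 (e d)) := by
    intro d
    have h2 := hlim ⟨d, pq0 d⟩
    rw [heq] at h2
    exact h2
  simp only [heq, hEx]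
  refine ⟨?_, fun ε hε => ?_⟩
  · obtain ⟨D, m0, hD⟩ := hL 1 one_pos
    refine ⟨|L| + 1 + ∑ d ∈ Finset.range D, |e d|, fun i => ?_⟩
    have hs : 0 ≤ ∑ d ∈ Finset.range D, |e d| := Finset.sum_nonneg fun _ _ => abs_nonneg _
    rcases Nat.lt_or_ge i.1 D with hi | hi
    · have h3 : |e i.1| ≤ ∑ d ∈ Finset.range D, |e d| :=
        Finset.single_le_sum (f := fun d => |e d|) (fun _ _ => abs_nonneg _)
          (Finset.mem_range.2 hi)
      have := abs_nonneg L
      linarith
    · obtain ⟨d', hd'⟩ := Nat.exists_eq_add_of_le hi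
      beta_reduce
      rw [hd']
      have h3 : |e (D + d') - L| ≤ 1 := by
        refine le_of_tendsto ((hle (D + d')).sub_const L).abs ?_
        filter_upwards [eventually_ge_atTop m0] with m hm
        exact hD m hm d'
      have h4 : |e (D + d')| ≤ |L| + |e (D + d') - L| := by
        have := abs_add_le L (e (D + d') - L)
        rwa [add_sub_cancel] at this
      linarith
  · obtain ⟨D, m0, hD⟩ := hL (ε / 2) (half_pos hε)
    have hev : ∀ᶠ m in atTop, ∀ d ∈ Finset.range D, |Q μ (f' m) j (g m) d - e d| ≤ ε := by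
      rw [Filter.eventually_all_finset]
      intro d _
      have h2 := ((hle d).sub_const (e d)).abs
      rw [sub_self, abs_zero] at h2
      exact h2.eventually (ge_mem_nhds hε)
    obtain ⟨m1, hm1⟩ := eventually_atTop.1 hev
    refine ⟨max m0 m1, fun m i hm => ?_⟩
    rcases Nat.lt_or_ge i.1 D with hi | hi
    · exact hm1 m ((le_max_right _ _).trans hm) i.1 (Finset.mem_range.2 hi)
    · obtain ⟨d', hd'⟩ := Nat.exists_eq_add_of_le hi
      beta_reduce
      rw [hd']
      have h3 : |e (D + d') - L| ≤ ε / 2 := by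
        refine le_of_tendsto ((hle (D + d')).sub_const L).abs ?_
        filter_upwards [eventually_ge_atTop m0] with m hm
        exact hD m hm d'
      have h4 := hD m ((le_max_left _ _).trans hm) d'
      have e1 : Q μ (f' m) j (g m) (D + d') - e (D + d') =
          (Q μ (f' m) j (g m) (D + d') - L) - (e (D + d') - L) := by ring
      rw [e1]
      refine (abs_sub _ _).trans ?_
      linarith

/-- **the moments of the field, uniformly in the volume** -/
theorem field_UL {f φ : ℕ → G → ℝ} (hf : ∀ m, Adm (f m)) (hφ : ∀ m, Continuous (φ m))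
    (hφc : ∀ m, Cls (φ m)) (hS : SD B hG atTop h (fun m y => f m y / f m 1) gs)
    (hSφ : SD B hG atTop h (fun m y => h m * φ m y * (f m y / f m 1))
      (fun x => fr x * gs x)) {c₁ b r : ℝ} (hc₁ : 0 < c₁) (hb : 0 < b)
    (hr : 0 < r)
    (henv : ∀ s, ∀ᶠ m in atTop, ∀ d, (∀ x, env μ (f m) s d x ≤ env μ (f m) s d 1) ∧
      ∀ x : G, nN x ≤ r → c₁ * env μ (f m) s d 1 * Real.exp (-(b * (h m * nN x ^ 2))) ≤
        env μ (f m) s d x)
    {j r' : ℕ} {α : Fin r' → Pq j} (hα : Function.Injective α) (t : Finset (Fin r')) :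
    UL (fun m (i : Σ d, Pq d) => Ex μ (f m) (j + i.1)
        (fun U => ∏ a ∈ t, (h m * φ m (hol U (jn i.2 (α a))))))
      (fun i => ER (n := n) (fun a => jn i.2 (α a)) fun a => if a ∈ t then fr else fun _ => 1) := by
  classical
  have h1 := block_UL (μ := μ) hf hS hc₁ hb hr henv α
    (O := fun a m => if a ∈ t then (fun x => h m * φ m x) else fun _ => 1)
    (o := fun a => if a ∈ t then fr else fun _ => 1)
    (fun a m => by
      by_cases ha : a ∈ t
      · simp only [ha, if_true]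
        exact continuous_const.mul (hφ m)
      · simp only [ha, if_false]
        exact continuous_const)
    (fun a m => by
      by_cases ha : a ∈ t
      · simp only [ha, if_true]
        intro g x
        beta_reduce
        rw [hφc m g x]
      · simp only [ha, if_false]
        exact fun _ _ => rfl)
    (fun q => by
      by_cases hq : ∃ a, q = α a
      · obtain ⟨a, rfl⟩ := hq
        by_cases ha : a ∈ t
        · refine hSφ.congr (fun m x => ?_) fun x => ?_
          · unfold inss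
            rw [Finset.prod_eq_single a (fun b _ hb => if_neg fun h4 => hb (hα h4).symm)
              (fun h4 => absurd (Finset.mem_univ _) h4), if_pos rfl]
            beta_reduce
            rw [if_pos ha]
            ring
          · unfold insR
            rw [Finset.prod_eq_single a (fun b _ hb => if_neg fun h4 => hb (hα h4).symm)
              (fun h4 => absurd (Finset.mem_univ _) h4), if_pos rfl]
            beta_reduce
            rw [if_pos ha]
            ring
        · refine hS.congr (fun m x => ?_) fun x => ?_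
          · unfold inss
            rw [Finset.prod_eq_single a (fun b _ hb => if_neg fun h4 => hb (hα h4).symm)
              (fun h4 => absurd (Finset.mem_univ _) h4), if_pos rfl]
            beta_reduce
            rw [if_neg ha, mul_one]
          · unfold insR
            rw [Finset.prod_eq_single a (fun b _ hb => if_neg fun h4 => hb (hα h4).symm)
              (fun h4 => absurd (Finset.mem_univ _) h4), if_pos rfl]
            beta_reduce
            rw [if_neg ha, mul_one]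
      · push Not at hq
        refine hS.congr (fun m x => ?_) fun x => ?_
        · unfold inss
          rw [Finset.prod_eq_one fun a _ => if_neg (hq a), mul_one]
        · unfold insR
          rw [Finset.prod_eq_one fun a _ => if_neg (hq a), mul_one])
  have e : ∀ (m : ℕ) (i : Σ d, Pq d), Ex μ (f m) (j + i.1)
      (fun U => ∏ a ∈ t, (h m * φ m (hol U (jn i.2 (α a))))) = Ex μ (f m) (j + i.1)
      (fun U => ∏ a, (if a ∈ t then (fun x => h m * φ m x) else fun _ => (1 : ℝ))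
        (hol U (jn i.2 (α a)))) := by
    intro m i
    congr 1
    funext U
    rw [← Finset.prod_subset (Finset.subset_univ t)]
    · refine Finset.prod_congr rfl fun a ha => ?_
      simp only [ha, if_true]
    · intro a _ ha
      simp only [ha, if_false]
  simp only [e]
  exact h1

end result

end

end Pool.Agent.N565.T3U
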